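import Pool.Agent.KSV.St
import Pool.Agent.Helper39.AF.Mor

/-!
# Generic surfaces with a non-zero morphism to an abelian variety are factors of it
-/

set_option autoImplicit false

namespace Pool.Agent.KSV

open Module Pool.Agent.Helper7 Pool.Agent.GPC

/-- the image of a morphism is non-degenerate for the polarisation -/
lemma Surf_image (B A : AbVar) (f : B.H1 → A.H1) (hf : B.IsMor A f)
    (h0 : ∀ u v, A.pol (f u) (f v) = 0) : ∀ v, f v = 0 := by
  classical
  let fl : B.H1 →ₗ[ℂ] A.H1 := hf.linear.mk' f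
  let S : Submodule ℚ A.H1 := (pData B).Q.map (fl.restrictScalars ℚ)
  have hSQ : S ≤ (pData A).Q := by
    rintro _ ⟨v, hv, rfl⟩
    rw [mem_pData_Q]
    exact hf.betti v ((mem_pData_Q B v).mp hv)
  have hmem : ∀ v : B.H1, f v ∈ Submodule.span ℂ (S : Set A.H1) := by
    intro v
    have h1 : f v = ∑ i, (pData B).bB.repr v i • f ((pData B).bB i) := by
      change fl v = ∑ i, (pData B).bB.repr v i • fl ((pData B).bB i)
      conv_lhs => rw [← (pData B).bB.sum_repr v]
      rw [map_sum]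
      exact Finset.sum_congr rfl fun i _ => map_smul _ _ _
    rw [h1]
    refine Submodule.sum_mem _ fun i _ => Submodule.smul_mem _ _ (Submodule.subset_span ?_)
    exact ⟨(pData B).bB i, (pData B).basis_mem i, rfl⟩
  have hspan : Submodule.span ℂ (S : Set A.H1) ≤ Submodule.span ℂ
      {v | (∀ j, IsAlgebraic ℚ (v j)) ∧ v ∈ Submodule.span ℂ (S : Set A.H1)} := by
    rw [Submodule.span_le]
    rintro _ ⟨v, _, rfl⟩
    have h1 : (fl.restrictScalars ℚ) v = ∑ i, v i • f (Pi.single i (1 : ℂ) : B.H1) := by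
      change fl v = ∑ i, v i • fl (Pi.single i (1 : ℂ) : B.H1)
      have h2 : v = ∑ i, v i • (Pi.single i (1 : ℂ) : B.H1) := by
        funext j; simp [Finset.sum_apply, Pi.single_apply]
      conv_lhs => rw [h2]
      rw [map_sum]
      exact Finset.sum_congr rfl fun i _ => map_smul _ _ _
    rw [SetLike.mem_coe, h1]
    refine Submodule.sum_mem _ fun i _ => Submodule.smul_mem _ _ (Submodule.subset_span ?_)
    exact ⟨hf.deRham _ (single_deRham B i), hmem _⟩
  have hQ : ∀ v ∈ (pData B).Q, f v = 0 := by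
    intro v hv
    refine hnd_pData A S hSQ hspan (f v) ⟨v, hv, rfl⟩ ?_
    rintro _ ⟨w, _, rfl⟩
    exact h0 v w
  intro v
  have h1 : f v = ∑ i, (pData B).bB.repr v i • f ((pData B).bB i) := by
    change fl v = ∑ i, (pData B).bB.repr v i • fl ((pData B).bB i)
    conv_lhs => rw [← (pData B).bB.sum_repr v]
    rw [map_sum]
    exact Finset.sum_congr rfl fun i _ => map_smul _ _ _
  rw [h1]
  exact Finset.sum_eq_zero fun i _ => by rw [hQ _ ((pData B).basis_mem i), smul_zero]

theorem thm_Surf : St_Surf := by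
  intro hKT B A hB f hf hne
  classical
  obtain ⟨f', hf', hadj⟩ := Pool.Agent.Helper39.AF.exists_adj_mor B A f hf
  have hgf : B.IsEnd (fun v => f' (f v)) :=
    (Pool.Agent.Helper39.AF.isEnd_iff B _).mpr (Pool.Agent.Helper39.AF.isMor_comp hf' hf)
  obtain ⟨q, hq⟩ := Pool.Agent.KT.Alg.Gen_rat B hB _ hgf
  have hq0 : q ≠ 0 := by
    rintro rfl
    obtain ⟨v, hv⟩ := hne
    refine hv (Surf_image B A f hf (fun u v => ?_) v)
    rw [hadj, hq v, Rat.cast_zero, zero_smul]
    exact map_zero ((pData B).ψ u)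
  let fl : B.H1 →ₗ[ℂ] A.H1 := hf.linear.mk' f
  let gl : A.H1 →ₗ[ℂ] B.H1 := hf'.linear.mk' f'
  have hfD : IsDRB (pData B) (pData A) fl := (isDRB_iff B A fl).mpr ⟨hf.betti, hf.deRham⟩
  have hgD : IsDRB (pData A) (pData B) gl := (isDRB_iff A B gl).mpr ⟨hf'.betti, hf'.deRham⟩
  refine ⟨Fin B.g ⊕ Fin B.g, inferInstance, inferInstance, pData B, fl,
    ((q⁻¹ : ℚ) : ℂ) • gl, ?_, hfD, ⟨fun v hv => ?_, fun i j => ?_⟩, fun v => ?_, ?_⟩
  · rw [Fintype.card_sum, Fintype.card_fin, hB.1]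
  · rw [LinearMap.smul_apply]
    exact (pData B).rat_smul_mem _ _ (hgD.rat v hv)
  · rw [LinearMap.smul_apply, Pi.smul_apply, smul_eq_mul]
    exact (isAlgebraic_algebraMap (A := ℂ) (q⁻¹ : ℚ)).mul (hgD.alg i j)
  · rw [LinearMap.smul_apply]
    change ((q⁻¹ : ℚ) : ℂ) • f' (f v) = v
    rw [hq v, smul_smul, Rat.cast_inv, inv_mul_cancel₀, one_smul]
    exact_mod_cast hq0
  · intro v hv hv0 x c p hp hcurve
    obtain ⟨N, hN, l, hl, hNl⟩ := (mem_pData_Q _ _).mp hv
    have hl0 : l ≠ 0 := by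
      rintro rfl
      rw [period_zero, smul_eq_zero] at hNl
      rcases hNl with h | h
      · exact hN (by exact_mod_cast h)
      · exact hv0 h
    refine hKT B hB l hl hl0 x (N * c) p hp ?_
    intro s
    rw [← hNl, Pi.smul_apply, smul_eq_mul, hcurve s]
    ring

end Pool.Agent.KSV
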