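import Pool.Agent.KSV.St

/-!
# KSV, modules BvDim and SkDim: the dimensions of two Lie algebras
-/

set_option autoImplicit false

namespace Pool.Agent.KSV

open Module Matrix NumberField Pool.Agent.Helper7 Pool.Agent.KS Pool.Agent.Ball
  Pool.Agent.Helper28.GPC Pool.Agent.KSE Pool.Agent.KSR

theorem thm_BvDim : St_BvDim := by
  intro V _ _ K _ _ hK t
  have hcard : Fintype.card (K →+* ℂ) = 1 := by
    rw [NumberField.Embeddings.card K ℂ, hK]
  obtain ⟨σ0, hσ0⟩ := Fintype.card_eq_one_iff.1 hcard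
  obtain ⟨s, hs⟩ : ∃ s : Fin 5 → Module.End ℂ V, s = ts t σ0 := ⟨_, rfl⟩
  obtain ⟨g, hg⟩ : ∃ g : {p : Fin 5 × Fin 5 // p.1 < p.2} → Module.End ℂ V,
      g = fun p => s p.1.1 * s p.1.2 - s p.1.2 * s p.1.1 := ⟨_, rfl⟩
  have hle : bvS t ≤ Submodule.span ℂ (Set.range g) := by
    refine Submodule.span_le.2 ?_
    rintro Z ⟨σ, a, b, rfl⟩
    rw [hσ0 σ, hσ0 (cj σ0), ← hs]
    rcases lt_trichotomy a b with h | h | h
    · refine Submodule.subset_span ⟨⟨(a, b), h⟩, ?_⟩
      rw [hg]
    · rw [h, sub_self]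
      exact Submodule.zero_mem _
    · have h1 : s b * s a - s a * s b ∈ Submodule.span ℂ (Set.range g) := by
        refine Submodule.subset_span ⟨⟨(b, a), h⟩, ?_⟩
        rw [hg]
      have h2 := Submodule.neg_mem _ h1
      rw [neg_sub] at h2
      exact h2
  have hfin : FiniteDimensional ℂ (Submodule.span ℂ (Set.range g)) :=
    FiniteDimensional.span_of_finite ℂ (Set.finite_range g)
  calc finrank ℂ (bvS t) ≤ finrank ℂ (Submodule.span ℂ (Set.range g)) :=
        Submodule.finrank_mono hle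
    _ ≤ Fintype.card {p : Fin 5 × Fin 5 // p.1 < p.2} := finrank_range_le_card g
    _ = 10 := by decide

theorem thm_SkDim : St_SkDim := by
  intro V _ _ _ hV ω hω
  have b : Basis (Fin 4) ℂ V := finBasisOfFinrankEq ℂ V hV
  obtain ⟨Φ, hΦ⟩ : ∃ Φ : Module.End ℂ V →ₗ[ℂ] ({p : Fin 4 × Fin 4 // p.1 < p.2} → ℂ),
      ∀ Y p, Φ Y p = ω (Y (b p.1.1)) (b p.1.2) + ω (b p.1.1) (Y (b p.1.2)) := by
    refine ⟨{ toFun := fun Y p => ω (Y (b p.1.1)) (b p.1.2) + ω (b p.1.1) (Y (b p.1.2))
              map_add' := ?_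
              map_smul' := ?_ }, fun Y p => rfl⟩
    · intro Y Z
      funext p
      simp only [LinearMap.add_apply, map_add, Pi.add_apply]
      ring
    · intro c Y
      funext p
      simp only [LinearMap.smul_apply, map_smul, smul_eq_mul, Pi.smul_apply, RingHom.id_apply]
      ring
  have hker : LinearMap.ker Φ ≤ Sk ω := by
    intro Y hY
    rw [LinearMap.mem_ker] at hY
    have h1 : ∀ i j : Fin 4, i < j → ω (Y (b i)) (b j) + ω (b i) (Y (b j)) = 0 := by
      intro i j hij
      have h2 := congrFun hY ⟨(i, j), hij⟩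
      rw [hΦ] at h2
      exact h2
    have hanti : ∀ u v, ω (Y v) u + ω v (Y u) = -(ω (Y u) v + ω u (Y v)) := by
      intro u v
      rw [hω (Y v) u, hω v (Y u)]
      ring
    have h3 : ∀ i j : Fin 4, ω (Y (b i)) (b j) + ω (b i) (Y (b j)) = 0 := by
      intro i j
      rcases lt_trichotomy i j with h | h | h
      · exact h1 i j h
      · subst h
        have h4 := hanti (b i) (b i)
        linear_combination (1 / 2 : ℂ) * h4
      · rw [hanti (b j) (b i), h1 j i h, neg_zero]
    have h4 : ω.comp Y + ω.compl₂ Y = 0 := by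
      refine LinearMap.ext_basis b b fun i j => ?_
      exact h3 i j
    intro u v
    exact LinearMap.congr_fun (LinearMap.congr_fun h4 u) v
  have h1 := LinearMap.finrank_range_add_finrank_ker Φ
  have h2 : finrank ℂ (Module.End ℂ V) = 16 := by
    rw [Module.finrank_linearMap, hV]
  have h3 : finrank ℂ (LinearMap.range Φ) ≤ 6 := by
    calc finrank ℂ (LinearMap.range Φ) ≤ finrank ℂ ({p : Fin 4 × Fin 4 // p.1 < p.2} → ℂ) :=
          Submodule.finrank_le _
      _ = Fintype.card {p : Fin 4 × Fin 4 // p.1 < p.2} := Module.finrank_fintype_fun_eq_card ℂ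
      _ = 6 := by decide
  have h4 : finrank ℂ (LinearMap.ker Φ) ≤ finrank ℂ (Sk ω) := Submodule.finrank_mono hker
  omega

end Pool.Agent.KSV
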