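import Pool.Agent.KSV.St
import Pool.Agent.KT.Alg.Nil
import Pool.Agent.KT.Alg.Cub

/-!
# KSV, module Ex3: in the second case there is a rational vector on a rational curve
(helper65, after the modules `Mat`, `No` of `KT/Alg`)
-/

set_option autoImplicit false

namespace Pool.Agent.KSV

open Module Matrix NumberField Pool.Agent.Helper7 Pool.Agent.KS Pool.Agent.Ball
  Pool.Agent.Helper28.GPC Pool.Agent.KSE Pool.Agent.KSR
open Pool.Agent.GPC (AbVar IsHodge IsGrothendieck Form OddSparse)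
open Pool.Agent.KT.Alg (gg St_KT Sp3 IsQ IsAl)

private theorem Ex3_core {κ : Type} [Fintype κ] [DecidableEq κ]
    (𝔪 : Submodule ℂ (Module.End ℂ (κ → ℂ))) (A B : Basis (Fin 4) ℂ (κ → ℂ))
    (hA : ∀ Y ∈ 𝔪, ∃ a b c : ℂ, LinearMap.toMatrix A A Y = gg a b c)
    (hA' : ∀ a b c : ℂ, Matrix.toLin A A (gg a b c) ∈ 𝔪)
    (R : Matrix (Fin 4) (Fin 4) ℂ → Prop) (R' : Module.End ℂ (κ → ℂ) → Prop)
    (hR : 𝔪 ≤ Submodule.span ℂ {Y | Y ∈ 𝔪 ∧ R' Y})
    (hR' : ∀ Y, R' Y → R (LinearMap.toMatrix B B Y)) :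
    Sp3 R (A.toMatrix B) := by
  obtain ⟨C, hC⟩ : ∃ C, C = A.toMatrix B := ⟨_, rfl⟩
  rw [← hC]
  have hCB : C * B.toMatrix A = 1 := by rw [hC]; exact A.toMatrix_mul_toMatrix_flip B
  have hdet : C.det ≠ 0 := by
    intro h0
    have h4 := congrArg Matrix.det hCB
    rw [Matrix.det_mul, h0, zero_mul, Matrix.det_one] at h4
    exact zero_ne_one h4
  have hCi : C⁻¹ = B.toMatrix A := Matrix.inv_eq_right_inv hCB
  have hmat : ∀ Y : Module.End ℂ (κ → ℂ),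
      LinearMap.toMatrix B B Y = C⁻¹ * LinearMap.toMatrix A A Y * C := by
    intro Y
    rw [hCi, hC, basis_toMatrix_mul_linearMap_toMatrix_mul_basis_toMatrix]
  refine ⟨hdet, fun a b c => ?_⟩
  have hx : LinearMap.toMatrix B B (Matrix.toLin A A (gg a b c)) = C⁻¹ * gg a b c * C := by
    rw [hmat, LinearMap.toMatrix_toLin]
  rw [← hx]
  have h6 : LinearMap.toMatrix B B (Matrix.toLin A A (gg a b c)) ∈
      (Submodule.span ℂ {Y | Y ∈ 𝔪 ∧ R' Y}).map (LinearMap.toMatrix B B).toLinearMap :=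
    ⟨_, hR (hA' a b c), rfl⟩
  rw [Submodule.map_span] at h6
  refine Submodule.span_mono ?_ h6
  rintro _ ⟨Y, ⟨hY, hY'⟩, rfl⟩
  refine ⟨hR' Y hY', ?_⟩
  obtain ⟨a', b', c', h7⟩ := hA Y hY
  refine ⟨a', b', c', ?_⟩
  have h8 : C * C⁻¹ = 1 := by rw [hCi, hCB]
  show C * LinearMap.toMatrix B B Y * C⁻¹ = _
  rw [hmat Y, h7]
  calc C * (C⁻¹ * gg a' b' c' * C) * C⁻¹ = (C * C⁻¹) * gg a' b' c' * (C * C⁻¹) := by
        simp only [Matrix.mul_assoc]
    _ = gg a' b' c' := by rw [h8, Matrix.one_mul, Matrix.mul_one]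

/-- the vector of coordinates of a combination of Betti basis vectors -/
private theorem Ex3_mulVec {κ ι : Type} [Fintype κ] (e₂ : Fin 4 ≃ κ) (bB : ι → κ → ℂ)
    (e₁ : Fin 4 → ι) (C D : Matrix (Fin 4) (Fin 4) ℂ)
    (h : ∀ j, D.mulVec (fun s => bB (e₁ j) (e₂ s)) = C.mulVec (Pi.single j 1))
    (v : Fin 4 → ℂ) :
    D.mulVec (fun s => (∑ j, v j • bB (e₁ j)) (e₂ s)) = C.mulVec v := by
  have h1 : (fun s => (∑ j, v j • bB (e₁ j)) (e₂ s)) = ∑ j, v j • (fun s => bB (e₁ j) (e₂ s)) := by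
    funext s
    simp only [Finset.sum_apply, Pi.smul_apply]
  have h2 : v = ∑ j, v j • (Pi.single j 1 : Fin 4 → ℂ) := by
    funext s
    simp [Finset.sum_apply, Pi.single_apply]
  rw [h1, Matrix.mulVec_sum]
  conv_rhs => rw [h2, Matrix.mulVec_sum]
  refine Finset.sum_congr rfl fun j _ => ?_
  rw [Matrix.mulVec_smul, Matrix.mulVec_smul, h]

theorem thm_Ex3 : St_Ex3 := by
  intro κ _ _ ϖ P hcard 𝔪 hQ hAl A hA hA'
  have hι : Fintype.card P.ι = 4 := by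
    rw [← Module.finrank_eq_card_basis P.bB, Module.finrank_fintype_fun_eq_card, hcard]
  obtain ⟨e₁⟩ : Nonempty (Fin 4 ≃ P.ι) := ⟨(Fintype.equivFinOfCardEq hι).symm⟩
  obtain ⟨e₂⟩ : Nonempty (Fin 4 ≃ κ) := ⟨(Fintype.equivFinOfCardEq hcard).symm⟩
  obtain ⟨B₁, hB₁⟩ : ∃ B₁, B₁ = P.bB.reindex e₁.symm := ⟨_, rfl⟩
  obtain ⟨B₂, hB₂⟩ : ∃ B₂, B₂ = (Pi.basisFun ℂ κ).reindex e₂.symm := ⟨_, rfl⟩
  have hB₁' : ∀ j, B₁ j = P.bB (e₁ j) := fun j => by
    rw [hB₁, Basis.reindex_apply, Equiv.symm_symm]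
  have hB₂' : ∀ j, B₂ j = Pi.single (e₂ j) 1 := fun j => by
    rw [hB₂, Basis.reindex_apply, Equiv.symm_symm, Pi.basisFun_apply]
  have hC : Sp3 IsQ (A.toMatrix B₁) := by
    refine Ex3_core 𝔪 A B₁ hA hA' IsQ (fun Y => ∀ v ∈ P.Q, Y v ∈ P.Q) hQ ?_
    intro Y hY a b
    obtain ⟨r, hr⟩ := P.repr_rat _ (hY _ (P.basis_mem (e₁ b))) (e₁ a)
    refine ⟨r, ?_⟩
    rw [LinearMap.toMatrix_apply, hB₁' b, hB₁, Basis.repr_reindex_apply, Equiv.symm_symm, hr]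
  have hD : Sp3 IsAl (A.toMatrix B₂) := by
    refine Ex3_core 𝔪 A B₂ hA hA' IsAl (fun Y => ∀ v : κ → ℂ, (∀ j, IsAlgebraic ℚ (v j)) →
      ∀ j, IsAlgebraic ℚ (Y v j)) hAl ?_
    intro Y hY a b
    rw [LinearMap.toMatrix_apply, hB₂' b]
    have e : B₂.repr (Y (Pi.single (e₂ b) 1)) a = Y (Pi.single (e₂ b) 1) (e₂ a) := by
      rw [hB₂, Basis.repr_reindex_apply, Equiv.symm_symm, Pi.basisFun_repr]
    rw [e]
    refine hY _ (fun j => ?_) _
    by_cases hj : j = e₂ b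
    · subst hj
      rw [Pi.single_eq_same]
      exact isAlgebraic_one
    · rw [Pi.single_eq_of_ne hj]
      exact isAlgebraic_zero
  have hCD : ∀ j, (A.toMatrix B₂).mulVec (fun s => P.bB (e₁ j) (e₂ s)) =
      (A.toMatrix B₁).mulVec (Pi.single j 1) := by
    intro j
    funext a
    have e1 : (A.toMatrix B₁).mulVec (Pi.single j 1) a = A.repr (B₁ j) a := by
      rw [Matrix.mulVec_single_one]
      rfl
    have e2 : (A.toMatrix B₂).mulVec (fun s => P.bB (e₁ j) (e₂ s)) a =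
        A.repr (∑ s, P.bB (e₁ j) (e₂ s) • B₂ s) a := by
      rw [map_sum, Finsupp.finsetSum_apply]
      show ∑ s, A.toMatrix B₂ a s * P.bB (e₁ j) (e₂ s) = _
      refine Finset.sum_congr rfl fun s _ => ?_
      rw [map_smul, Finsupp.smul_apply, smul_eq_mul, mul_comm]
      rfl
    have e3 : (∑ s, P.bB (e₁ j) (e₂ s) • B₂ s) = B₁ j := by
      rw [hB₁' j]
      conv_rhs => rw [← B₂.sum_repr (P.bB (e₁ j))]
      refine Finset.sum_congr rfl fun s _ => ?_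
      rw [hB₂, Basis.repr_reindex_apply, Equiv.symm_symm, Pi.basisFun_repr]
    rw [e1, e2, e3]
  obtain ⟨v, a, b, c, hv, habc, hq, hker⟩ := Pool.Agent.KT.Alg.thm_Nil _ hC
  have hmem : (∑ j, (v j : ℂ) • P.bB (e₁ j)) ∈ P.Q := by
    refine Submodule.sum_mem _ fun j _ => ?_
    have h4 : ((v j : ℂ) • P.bB (e₁ j)) = (v j : ℚ) • P.bB (e₁ j) := by
      funext s
      simp [Pi.smul_apply, Rat.smul_def]
    rw [h4]
    exact Submodule.smul_mem _ _ (P.basis_mem _)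
  have hne : (∑ j, (v j : ℂ) • P.bB (e₁ j)) ≠ 0 := by
    intro h0
    apply hv
    have hli : LinearIndependent ℂ (fun j => P.bB (e₁ j)) :=
      P.bB.linearIndependent.comp _ e₁.injective
    have h5 := Fintype.linearIndependent_iff.mp hli (fun j => (v j : ℂ)) h0
    funext j
    exact_mod_cast h5 j
  rw [← Ex3_mulVec e₂ (fun q => P.bB q) e₁ _ _ hCD (fun j => (v j : ℂ))] at hker
  obtain ⟨x, c', pp, hpp, hu⟩ := Pool.Agent.KT.Alg.thm_Cub _ hD _ a b c habc hq hker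
  refine ⟨_, hmem, hne, x, c', fun s => pp (e₂.symm s), fun s m => hpp _ m, ?_⟩
  intro s
  have h6 := hu (e₂.symm s)
  simp only [Equiv.apply_symm_apply] at h6
  exact h6

end Pool.Agent.KSV
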