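import Pool.Agent.KSV.St

/-!
# Kuga-Satake varieties of dimension five, split case: the symmetries act by all skew matrices
-/

set_option autoImplicit false

namespace Pool.Agent.KSV

open Module Matrix NumberField Pool.Agent.Helper7 Pool.Agent.KS Pool.Agent.Ball
  Pool.Agent.Helper28.GPC Pool.Agent.KSE Pool.Agent.KSR
open Pool.Agent.GPC (AbVar IsHodge IsGrothendieck Form OddSparse)
open Pool.Agent.KT.Alg (gg St_KT IsAlgl thm_AlgS)

section pdata

variable {κ κ' : Type} [Fintype κ] [DecidableEq κ] [Fintype κ'] [DecidableEq κ'] {ϖ : ℂ}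

/-- morphisms map algebraic vectors to algebraic vectors -/
theorem Hall5_alg {Q : PData κ' ϖ} {P : PData κ ϖ} {f : (κ' → ℂ) →ₗ[ℂ] (κ → ℂ)}
    (hf : IsDRB Q P f) (v : κ' → ℂ) (hv : ∀ j, IsAlgebraic ℚ (v j)) (j : κ) :
    IsAlgebraic ℚ (f v j) := by
  have h1 : f v j = ∑ i, v i * f (Pi.single i 1) j := by
    have h2 : v = ∑ i, v i • (Pi.single i 1 : κ' → ℂ) := by
      funext s
      simp [Finset.sum_apply, Pi.single_apply]
    conv_lhs => rw [h2, map_sum, Finset.sum_apply]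
    refine Finset.sum_congr rfl fun i _ => ?_
    rw [map_smul, Pi.smul_apply, smul_eq_mul]
  rw [h1]
  have h3 : ∀ s : Finset κ', IsAlgebraic ℚ (∑ i ∈ s, v i * f (Pi.single i 1) j) := by
    intro s
    induction s using Finset.induction_on with
    | empty => rw [Finset.sum_empty]; exact isAlgebraic_zero
    | insert a s ha ih =>
      rw [Finset.sum_insert ha]
      exact ((hv a).mul (hf.alg a j)).add ih
  exact h3 _

/-- the rational structure spans -/
theorem Hall5_span (Q : PData κ' ϖ) : Submodule.span ℂ (Q.Q : Set (κ' → ℂ)) = ⊤ := by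
  rw [eq_top_iff, ← Q.bB.span_eq]
  apply Submodule.span_mono
  rintro _ ⟨j, rfl⟩
  exact Submodule.subset_span ⟨j, rfl⟩

/-- the form does not vanish on a factor -/
theorem Hall5_nz (P : PData κ ϖ) (Q : PData κ' ϖ) (hP : HNd P) {f : (κ' → ℂ) →ₗ[ℂ] (κ → ℂ)}
    {g : (κ → ℂ) →ₗ[ℂ] (κ' → ℂ)} (hf : IsDRB Q P f) (hgf : ∀ v, g (f v) = v)
    [Nonempty κ'] : ∃ u v, P.ψ (f u) (f v) ≠ 0 := by
  by_contra hcon
  push Not at hcon
  let S : Submodule ℚ (κ → ℂ) := Q.Q.map (f.restrictScalars ℚ)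
  have hS : ∀ x, x ∈ S ↔ ∃ v ∈ Q.Q, f v = x := fun x => Submodule.mem_map
  have hspan : Submodule.span ℂ (S : Set (κ → ℂ)) = LinearMap.range f := by
    apply le_antisymm
    · rw [Submodule.span_le]
      intro x hx
      obtain ⟨v, -, rfl⟩ := (hS x).1 hx
      exact ⟨v, rfl⟩
    · rw [LinearMap.range_eq_map, ← Hall5_span Q, Submodule.map_span]
      apply Submodule.span_mono
      rintro _ ⟨v, hv, rfl⟩
      exact (hS _).2 ⟨v, hv, rfl⟩
  have h1 : S ≤ P.Q := by
    intro x hx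
    obtain ⟨v, hv, rfl⟩ := (hS x).1 hx
    exact hf.rat v hv
  have h2 : Submodule.span ℂ (S : Set (κ → ℂ)) ≤ Submodule.span ℂ
      {v | (∀ j, IsAlgebraic ℚ (v j)) ∧ v ∈ Submodule.span ℂ (S : Set (κ → ℂ))} := by
    rw [hspan, LinearMap.range_eq_map]
    have h3 : (⊤ : Submodule ℂ (κ' → ℂ)) = Submodule.span ℂ
        (Set.range fun j => (Pi.single j 1 : κ' → ℂ)) := by
      rw [← (Pi.basisFun ℂ κ').span_eq]
      congr 2
      funext j
      rw [Pi.basisFun_apply]
    nth_rewrite 1 [h3]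
    rw [Submodule.map_span]
    apply Submodule.span_mono
    rintro _ ⟨_, ⟨j, rfl⟩, rfl⟩
    refine ⟨fun l => hf.alg j l, ?_⟩
    rw [← LinearMap.range_eq_map]
    exact ⟨_, rfl⟩
  obtain ⟨j⟩ : Nonempty Q.ι := by
    by_contra h0
    rw [not_nonempty_iff] at h0
    have h4 := Q.bB.span_eq
    rw [Set.range_eq_empty, Submodule.span_empty] at h4
    have h5 : (fun _ => 1 : κ' → ℂ) = 0 := (Submodule.mem_bot ℂ).1 (h4 ▸ Submodule.mem_top)
    obtain ⟨l⟩ := ‹Nonempty κ'›
    exact one_ne_zero (congrFun h5 l)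
  have h6 := hP S h1 h2 (f (Q.bB j)) ((hS _).2 ⟨_, Q.basis_mem j, rfl⟩) (by
    intro v hv
    obtain ⟨w, -, rfl⟩ := (hS v).1 hv
    exact hcon _ _)
  have h7 : Q.bB j = 0 := by rw [← hgf (Q.bB j), h6, map_zero]
  exact Q.bB.ne_zero j h7

end pdata

theorem thm_Hall5 (h1 : St_D4) (h2 : St_Ex3) (h3 : St_Spin) (h4 : St_BvDim) (h5 : St_SkDim) :
    St_Hall5 := by
  intro I _ _ n κ _ _ ϖ hϖ P K _ _ c m h t S k γ hB hA hP hreal hT i hne hm5 hK hSpl σ Z hZ
  classical
  obtain ⟨κ', _, _, Q, f, g, hcard, hf, hg, hgf, hno⟩ := hSpl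
  have hne' : Nonempty κ' := Fintype.card_pos_iff.1 (by rw [hcard]; norm_num)
  -- the operators of the factor
  let Th : GG κ →ₗ[ℂ] Module.End ℂ (κ' → ℂ) :=
    { toFun := fun X => g ∘ₗ (X.1 i - (X.2 / 2) • (1 : Module.End ℂ (κ i → ℂ))) ∘ₗ f
      map_add' := by
        intro X Y
        apply LinearMap.ext
        intro v
        show g (X.1 i (f v) + Y.1 i (f v) - ((X.2 + Y.2) / 2) • f v) =
          g (X.1 i (f v) - (X.2 / 2) • f v) + g (Y.1 i (f v) - (Y.2 / 2) • f v)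
        rw [← map_add]
        congr 1
        module
      map_smul' := by
        intro r X
        apply LinearMap.ext
        intro v
        show g (r • X.1 i (f v) - ((r * X.2) / 2) • f v) =
          r • g (X.1 i (f v) - (X.2 / 2) • f v)
        rw [← map_smul g, smul_sub, smul_smul, mul_div_assoc] }
  have hTh : ∀ X v, Th X v = g (X.1 i (f v) - (X.2 / 2) • f v) := fun _ _ => rfl
  have hfg : IsDRB (P i) (P i) (f ∘ₗ g) :=
    ⟨fun v hv => hf.rat _ (hg.rat v hv), fun a b => Hall5_alg hf _ (fun l => hg.alg a l) b⟩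
  have hcomm : ∀ X : GG κ, IsInv n P γ X → ∀ v, f (Th X v) = X.1 i (f v) - (X.2 / 2) • f v := by
    intro X hX v
    have e1 := hX.comm i i (f ∘ₗ g) hfg (f v)
    have e2 : X.1 i (f (g (f v))) = f (g (X.1 i (f v))) := e1
    rw [hgf] at e2
    rw [hTh, map_sub, map_sub, map_smul, map_smul, hgf, ← e2]
  let Inv : Submodule ℂ (GG κ) :=
    { carrier := {X | IsInv n P γ X}
      add_mem' := fun hX hY => hX.add n P γ hY
      zero_mem' := IsInv.zero n P γ
      smul_mem' := fun c _ hX => hX.smul n P γ c }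
  let 𝔪 : Submodule ℂ (Module.End ℂ (κ' → ℂ)) := Inv.map Th
  have hmem : ∀ X, IsInv n P γ X → Th X ∈ 𝔪 := fun X hX => ⟨X, hX, rfl⟩
  -- brackets
  have hbr : ∀ Y ∈ 𝔪, ∀ Y' ∈ 𝔪, Y * Y' - Y' * Y ∈ 𝔪 := by
    rintro _ ⟨X, hX, rfl⟩ _ ⟨X', hX', rfl⟩
    refine ⟨X * X' - X' * X, hX.bracket n P γ hX', ?_⟩
    apply LinearMap.ext
    intro v
    have e2 : (X * X' - X' * X).2 = 0 := by
      show X.2 * X'.2 - X'.2 * X.2 = 0
      ring
    have e1 : ∀ w, (X * X' - X' * X).1 i w = X.1 i (X'.1 i w) - X'.1 i (X.1 i w) := fun _ => rfl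
    have e3 : ∀ (A B : GG κ), IsInv n P γ B → g (A.1 i (f (Th B v)) - (A.2 / 2) • f (Th B v)) =
        g (A.1 i (B.1 i (f v))) - (B.2 / 2) • g (A.1 i (f v)) - (A.2 / 2) • g (B.1 i (f v)) +
          (A.2 / 2 * (B.2 / 2)) • v := by
      intro A B hB'
      rw [hcomm B hB']
      simp only [map_sub, map_smul, smul_sub, smul_smul, hgf]
      module
    rw [hTh, e2, e1]
    show g _ = Th X (Th X' v) - Th X' (Th X v)
    rw [hTh X (Th X' v), hTh X' (Th X v), e3 X X' hX', e3 X' X hX]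
    simp only [map_sub, zero_div, zero_smul, sub_zero]
    module
  -- the form
  let ω : (κ' → ℂ) →ₗ[ℂ] (κ' → ℂ) →ₗ[ℂ] ℂ := (P i).ψ.compl₁₂ f f
  have hω : ∀ u v, ω u v = (P i).ψ (f u) (f v) := fun _ _ => rfl
  have halt : ∀ u v, ω u v = - ω v u := fun u v => (P i).hψalt _ _
  have hsk : 𝔪 ≤ Sk ω := by
    rintro _ ⟨X, hX, rfl⟩ u v
    rw [hω, hω, hcomm X hX, hcomm X hX]
    have e1 := hX.pol i (f u) (f v)
    simp only [map_sub, map_smul, LinearMap.sub_apply, LinearMap.smul_apply, smul_eq_mul]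
    linear_combination e1
  -- irreducibility
  have hcj : cj σ = σ := hreal i σ
  have hirr : ∀ W : Submodule ℂ (κ' → ℂ), (∀ X ∈ 𝔪, ∀ w ∈ W, X w ∈ W) → W = ⊥ ∨ W = ⊤ := by
    intro W hW
    by_cases hW0 : W = ⊥
    · exact Or.inl hW0
    right
    have hU : ∀ X : GG κ, IsInv n P γ X → ∀ v ∈ W.map f, X.1 i v ∈ W.map f := by
      rintro X hX _ ⟨w, hw, rfl⟩
      have e1 := hcomm X hX w
      have e2 : X.1 i (f w) = f (Th X w + (X.2 / 2) • w) := by
        rw [map_add, map_smul, e1, sub_add_cancel]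
      rw [e2]
      exact ⟨_, W.add_mem (hW _ (hmem X hX) w hw) (W.smul_mem _ hw), rfl⟩
    have hprod := stable_productsE n hϖ P i (S i) γ hB hA (hP i) (W.map f) hU σ
    rw [hcj] at hprod
    have hinj : Function.Injective f := Function.LeftInverse.injective hgf
    have hU0 : W.map f ≠ ⊥ := by
      intro h0
      apply hW0
      rw [Submodule.eq_bot_iff]
      intro w hw
      have h1 : f w ∈ W.map f := ⟨w, hw, rfl⟩
      rw [h0, Submodule.mem_bot] at h1
      rw [← hgf w, h1, map_zero]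
    have e : Fin (m i) ≃ Fin 5 := finCongr hm5
    have h6 := h3 (κ i → ℂ) (fun a => ts (t i) σ (e.symm a))
      (Matrix.of fun a b => σ (h i (e.symm a) (e.symm b))) ?_ ?_ ?_ (W.map f) hU0
      (fun a b u hu => hprod (e.symm a) (e.symm b) u hu)
    · have h7 : finrank ℂ (W.map f) = finrank ℂ W := (Submodule.equivMapOfInjective f hinj W).finrank_eq.symm
      rw [h7] at h6
      apply Submodule.eq_top_of_finrank_eq
      have h8 : finrank ℂ (κ' → ℂ) = 4 := by
        rw [Module.finrank_fintype_fun_eq_card, hcard]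
      have h9 := Submodule.finrank_le W
      omega
    · ext a b
      show σ (h i (e.symm b) (e.symm a)) = σ (h i (e.symm a) (e.symm b))
      rw [← (S i).herm (e.symm a) (e.symm b), ← (S i).conj, hcj]
    · have h7 : (Matrix.of fun a b => σ (h i (e.symm a) (e.symm b)) : Matrix (Fin 5) (Fin 5) ℂ) =
          ((h i).map σ).submatrix e.symm e.symm := rfl
      rw [h7, Matrix.det_submatrix_equiv_self]
      have h8 : ((h i).map σ).det = σ (h i).det := by
        rw [RingHom.map_det, RingHom.mapMatrix_apply]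
      rw [h8]
      exact (map_ne_zero σ).2 (S i).nd
    · intro a b
      have h7 := ts_pair (S i).conj (S i).cliff σ (e.symm a) (e.symm b)
      rw [hcj] at h7
      exact h7
  -- nondegeneracy
  have hnd : ∀ u, (∀ v, ω u v = 0) → u = 0 := by
    let R : Submodule ℂ (κ' → ℂ) :=
      { carrier := {u | ∀ v, ω u v = 0}
        add_mem' := fun {a b} ha hb v => by rw [map_add, LinearMap.add_apply, ha v, hb v, add_zero]
        zero_mem' := fun v => by rw [map_zero, LinearMap.zero_apply]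
        smul_mem' := fun c a ha v => by
          rw [map_smul, LinearMap.smul_apply, ha v, smul_zero] }
    rcases hirr R (fun X hX w hw v => by
      have e1 := hsk hX w v
      rw [hw (X v), add_zero] at e1
      exact e1) with h6 | h6
    · intro u hu
      have h7 : u ∈ R := hu
      rw [h6] at h7
      exact (Submodule.mem_bot ℂ).1 h7
    · exfalso
      obtain ⟨u, v, huv⟩ := Hall5_nz (P i) Q (hP i) hf hgf
      have h7 : u ∈ R := by rw [h6]; exact Submodule.mem_top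
      exact huv (h7 v)
  have hfin : finrank ℂ (κ' → ℂ) = 4 := by
    rw [Module.finrank_fintype_fun_eq_card, hcard]
  rcases h1 (κ' → ℂ) hfin ω halt hnd 𝔪 hbr hsk hirr with hall | ⟨A, hA1, hA2⟩
  · -- everything
    let 𝔛 : Submodule ℂ (Module.End ℂ (κ i → ℂ)) :=
      { carrier := {Y | ∃ X : GG κ, IsInv n P γ X ∧ X.2 = 0 ∧ X.1 i = Y}
        add_mem' := by
          rintro _ _ ⟨X, hX, hX2, rfl⟩ ⟨X', hX', hX2', rfl⟩
          refine ⟨X + X', hX.add n P γ hX', ?_, rfl⟩
          show X.2 + X'.2 = 0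
          rw [hX2, hX2', add_zero]
        zero_mem' := ⟨0, IsInv.zero n P γ, rfl, rfl⟩
        smul_mem' := by
          rintro c _ ⟨X, hX, hX2, rfl⟩
          refine ⟨c • X, hX.smul n P γ c, ?_, rfl⟩
          show c * X.2 = 0
          rw [hX2, mul_zero] }
    have hle : 𝔛 ≤ bvS (t i) := by
      rintro _ ⟨X, hX, hX2, rfl⟩
      obtain ⟨M, hM⟩ := hT X hX i
      exact mem_bvE n P i (S i) γ X hX hX2 M hM
    let rest : Module.End ℂ (κ i → ℂ) →ₗ[ℂ] Module.End ℂ (κ' → ℂ) :=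
      { toFun := fun Y => g ∘ₗ Y ∘ₗ f
        map_add' := fun Y Y' => by
          apply LinearMap.ext
          intro v
          exact map_add g _ _
        map_smul' := fun c Y => by
          apply LinearMap.ext
          intro v
          exact map_smul g _ _ }
    have hm : 𝔪 ≤ 𝔛.map rest := by
      rintro _ ⟨X, hX, rfl⟩
      refine ⟨X.1 i - (X.2 / 2) • (1 : Module.End ℂ (κ i → ℂ)),
        ⟨X + (-X.2) • ((fun _ => (1 / 2 : ℂ) • (1 : Module.End ℂ _), 1) : GG κ),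
        hX.add _ _ γ ((Helper98.Ball.isInv_homothety _ _ γ).smul _ _ γ _), ?_, ?_⟩, rfl⟩
      · show X.2 + (-X.2) * 1 = 0
        ring
      · show X.1 i + (-X.2) • ((1 / 2 : ℂ) • (1 : Module.End ℂ (κ i → ℂ))) = _
        module
    have hbv : finrank ℂ (bvS (t i)) ≤ 10 := by
      have e : Fin (m i) ≃ Fin 5 := finCongr hm5
      refine le_trans (Submodule.finrank_mono ?_) (h4 (κ i → ℂ) (K i) hK (fun a => t i (e.symm a)))
      apply Submodule.span_mono
      rintro _ ⟨τ, a, b, rfl⟩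
      refine ⟨τ, e a, e b, ?_⟩
      have e1 : ∀ (τ : K i →+* ℂ) (a : Fin (m i)),
          ts (fun a => t i (e.symm a)) τ (e a) = ts (t i) τ a := by
        intro τ a
        unfold ts
        simp only [Equiv.symm_apply_apply]
      rw [e1, e1]
    have h6 : 10 ≤ finrank ℂ (Sk ω) := h5 (κ' → ℂ) hfin ω halt
    have h7 := Submodule.finrank_mono hall
    have h8 := Submodule.finrank_mono hm
    have h9 : finrank ℂ (𝔛.map rest) ≤ finrank ℂ 𝔛 := Submodule.finrank_map_le rest 𝔛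
    have h10 : 𝔛 = bvS (t i) := Submodule.eq_of_le_of_finrank_le hle (by omega)
    -- the matrix
    have huniq : ∀ τ : K i →+* ℂ, τ = σ := by
      have h11 : Fintype.card (K i →+* ℂ) = 1 := by
        rw [NumberField.Embeddings.card (K i) ℂ, hK]
      obtain ⟨x, hx⟩ := Fintype.card_eq_one_iff.mp h11
      intro τ
      rw [hx τ, hx σ]
    have hskw : SkewM (h i) (fun _ => Z) := by
      intro τ
      rw [huniq τ]
      exact hZ
    obtain ⟨Y, hY, hYM⟩ := exists_bvE (S i).conj (S i).herm (S i).nd (S i).cliff _ hskw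
    rw [← h10] at hY
    obtain ⟨X, hX, hX2, rfl⟩ := hY
    obtain ⟨M, hM, hMX⟩ := exists_famE S hreal hT X hX hX2
    refine ⟨M, hM, ?_⟩
    exact congrFun (fam_unique S i (hMX i) hYM) σ
  · -- the third symmetric power
    exfalso
    have hs1 : 𝔪 ≤ Submodule.span ℂ {Y | Y ∈ 𝔪 ∧ ∀ v ∈ Q.Q, Y v ∈ Q.Q} := by
      rintro _ ⟨X, hX, rfl⟩
      have h6 : Th X ∈ (Submodule.span ℂ {Y | IsInv n P γ Y ∧ IsRatl P Y}).map Th :=
        ⟨X, mem_span_of_isInv n P γ hϖ hB X hX, rfl⟩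
      rw [Submodule.map_span] at h6
      refine Submodule.span_mono ?_ h6
      rintro _ ⟨Y, ⟨hY, hY1, q, hq⟩, rfl⟩
      refine ⟨hmem Y hY, fun v hv => ?_⟩
      rw [hTh, hq]
      apply hg.rat
      refine Submodule.sub_mem _ (hY1 i _ (hf.rat v hv)) ?_
      have h7 : ((q : ℂ) / 2) • f v = (q / 2 : ℚ) • f v := by
        funext s
        simp [Pi.smul_apply, Rat.smul_def]
      rw [h7]
      exact Submodule.smul_mem _ _ (hf.rat v hv)
    have hs2 : 𝔪 ≤ Submodule.span ℂ {Y | Y ∈ 𝔪 ∧ ∀ v : κ' → ℂ, (∀ j, IsAlgebraic ℚ (v j)) →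
        ∀ j, IsAlgebraic ℚ (Y v j)} := by
      rintro _ ⟨X, hX, rfl⟩
      have h6 : Th X ∈ (Submodule.span ℂ {Y | IsInv n P γ Y ∧ IsAlgl Y}).map Th :=
        ⟨X, thm_AlgS I n κ ϖ P k γ hA X hX, rfl⟩
      rw [Submodule.map_span] at h6
      refine Submodule.span_mono ?_ h6
      rintro _ ⟨Y, ⟨hY, hY1, hY2⟩, rfl⟩
      refine ⟨hmem Y hY, fun v hv => ?_⟩
      rw [hTh]
      apply Hall5_alg hg
      intro j
      have h7 : IsAlgebraic ℚ (Y.2 / 2) := by
        rw [div_eq_mul_inv]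
        exact hY2.mul (isAlgebraic_algebraMap (2 : ℚ)).inv
      rw [Pi.sub_apply, Pi.smul_apply, smul_eq_mul]
      exact (hY1 i _ (Hall5_alg hf v hv) j).sub (h7.mul (Hall5_alg hf v hv j))
    obtain ⟨v, hv, hv0, x, c', p, hp, hvp⟩ := h2 κ' ϖ Q hcard 𝔪 hs1 hs2 A hA1 hA2
    exact hno v hv hv0 x c' p hp hvp

end Pool.Agent.KSV
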