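import Pool.Agent.KSV.AVB

/-!
Grothendieck classes on products of powers of Kuga-Satake varieties are Hodge classes, also in the
split case of dimension five: the general statement.
-/

set_option autoImplicit false

namespace Pool.Agent.KSV

open Module Matrix NumberField Pool.Agent.Helper7 Pool.Agent.KS Pool.Agent.Ball
  Pool.Agent.Helper28.GPC Pool.Agent.KSE Pool.Agent.KSR
open Pool.Agent.GPC (AbVar IsHodge IsGrothendieck Form IsBetti IsDeRham IsFil H1 OddSparse)
open Pool.Agent.KT.Alg (gg St_KT)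

theorem main_all5 (h5 : St_Hall5) (hSurf : St_Surf) (hKT : St_KT)
    {I : Type} [Fintype I] (A : I → AbVar) {K : I → Type}
    [∀ i, Field (K i)] [∀ i, NumberField (K i)] {c : ∀ i, K i →+* K i} {m : I → ℕ}
    (S : ∀ i, (A i).KugaSatakeMul (K i) (c i) (m i))
    (hK : ∀ i, (c i = RingHom.id (K i) ∧ 3 ≤ m i ∧ (m i ≠ 5 ∨ (finrank ℚ (K i) = 1 ∧
        ∃ B : AbVar, B.IsGenericSurface ∧ ∃ f, B.IsMor (A i) f ∧ ∃ v, f v ≠ 0))) ∨
      (c i ≠ RingHom.id (K i) ∧ (m i = 1 ∨ Even (m i)) ∧ OddSparse (K i)))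
    (hI : Subsingleton I ∨ ∀ i, c i = RingHom.id (K i) ∧ m i ≠ 4)
    (hHom : ∀ i j, i ≠ j → ∀ f, (A i).IsMor (A j) f → ∀ v, f v = 0) (n : I → ℕ) (k : ℕ)
    (α : Form A n (2 * k)) (hα : IsGrothendieck A n k α) : IsHodge A n k α := by
  by_cases hr : ∀ i, c i = RingHom.id (K i)
  · have hK' : ∀ i, 3 ≤ m i ∧ Ok (pData (A i)) (K i) (m i) := by
      intro i
      rcases hK i with h | h
      · refine ⟨h.2.1, ?_⟩
        rcases h.2.2 with h1 | ⟨h1, B, hB, f, hf, hf0⟩
        · exact Or.inl h1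
        · exact Or.inr ⟨h1, hSurf hKT B (A i) hB f hf hf0⟩
      · exact absurd (hr i) h.1
    refine thm_Main h5 A S hr (fun i => (hK' i).1) (fun i => (hK' i).2) ?_ hHom n k α hα
    rcases hI with hI | hI
    · exact Or.inr hI
    · exact Or.inl fun i => (hI i).2
  · push Not at hr
    obtain ⟨i, hi⟩ := hr
    have hs : Subsingleton I := by
      rcases hI with hI | hI
      · exact hI
      · exact absurd (hI i).1 hi
    let _ : Unique I := ⟨⟨i⟩, fun j => Subsingleton.elim _ _⟩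
    rcases hK i with h | h
    · exact absurd h.1 hi
    · exact main_unique A n S h.1 h.2.1 h.2.2 k α hα

end Pool.Agent.KSV
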