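import Pool.Agent.KSV.St

/-!
# [Spin] dimension of the spin modules of a form of dimension five
-/

set_option autoImplicit false

namespace Pool.Agent.KSV

open Module Matrix

private theorem Spin_orth (H : Matrix (Fin 5) (Fin 5) ℂ) (hs : Hᵀ = H) (hd : H.det ≠ 0) :
    ∃ o : Fin 5 → Fin 5 → ℂ, ∀ a b, ∑ i, ∑ j, o a i * H i j * o b j = if a = b then 1 else 0 := by
  set B : LinearMap.BilinForm ℂ (Fin 5 → ℂ) := Matrix.toBilin' H with hB
  have hBa : ∀ x y, B x y = ∑ i, ∑ j, x i * H i j * y j := fun x y => by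
    rw [hB, Matrix.toBilin'_apply]
  have hsym : LinearMap.IsSymm B := by
    constructor
    intro x y
    show B x y = B y x
    rw [hBa, hBa, Finset.sum_comm]
    refine Finset.sum_congr rfl fun j _ => Finset.sum_congr rfl fun i _ => ?_
    have h1 : H i j = H j i := by
      rw [← Matrix.transpose_apply H i j, hs]
    rw [h1]
    ring
  have h2 : Invertible (2 : ℂ) := invertibleOfNonzero (by norm_num)
  obtain ⟨v, hv⟩ : ∃ v : Basis (Fin 5) ℂ (Fin 5 → ℂ), ∀ i j, i ≠ j → B (v i) (v j) = 0 := by
    obtain ⟨v, hv⟩ := LinearMap.BilinForm.exists_orthogonal_basis hsym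
    have h5 : finrank ℂ (Fin 5 → ℂ) = 5 := by simp
    refine ⟨v.reindex (finCongr h5), fun i j hij => ?_⟩
    rw [Basis.reindex_apply, Basis.reindex_apply]
    exact hv fun h => hij ((finCongr h5).symm.injective h)
  have hvi : ∀ i, B (v i) (v i) ≠ 0 := by
    intro i h0
    have h1 : ∀ y, B (v i) y = 0 := by
      intro y
      rw [← v.sum_repr y, map_sum]
      refine Finset.sum_eq_zero fun j _ => ?_
      rw [map_smul]
      by_cases hij : i = j
      · rw [← hij, h0, smul_zero]
      · rw [hv i j hij, smul_zero]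
    apply v.ne_zero i
    refine Matrix.eq_zero_of_vecMul_eq_zero hd (funext fun j => ?_)
    have h3 := h1 (Pi.single j 1)
    rw [hBa] at h3
    rw [Matrix.vecMul, dotProduct]
    refine Eq.trans (Finset.sum_congr rfl fun k _ => ?_) h3
    rw [Finset.sum_eq_single j]
    · rw [Pi.single_eq_same, mul_one]
    · intro l _ hl
      rw [Pi.single_eq_of_ne hl, mul_zero]
    · intro h
      exact absurd (Finset.mem_univ _) h
  have hc : ∀ i, ∃ c : ℂ, c ^ 2 = 1 / B (v i) (v i) := fun i =>
    IsAlgClosed.exists_pow_nat_eq _ (by norm_num)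
  choose c hc using hc
  refine ⟨fun a => c a • v a, fun a b => ?_⟩
  have h1 : ∑ i, ∑ j, (c a • v a) i * H i j * (c b • v b) j = B (c a • v a) (c b • v b) :=
    (hBa _ _).symm
  rw [h1, map_smul, map_smul, LinearMap.smul_apply, smul_eq_mul, smul_eq_mul]
  by_cases hab : a = b
  · subst hab
    rw [if_pos rfl, ← mul_assoc, ← pow_two, hc]
    exact one_div_mul_cancel (hvi a)
  · rw [if_neg hab, hv a b hab, mul_zero, mul_zero]

/-- an eigenvector of an operator with square minus one -/
private theorem Spin_eig {V : Type} [AddCommGroup V] [Module ℂ V] (A : Module.End ℂ V)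
    (hA : A * A = -1) (U : Submodule ℂ V) (hU : U ≠ ⊥) (hAU : ∀ u ∈ U, A u ∈ U) :
    ∃ α : ℂ, α ≠ 0 ∧ ∃ u ∈ U, u ≠ 0 ∧ A u = α • u := by
  obtain ⟨u, huU, hu⟩ := Submodule.exists_mem_ne_zero_of_ne_bot hU
  have hA' : A (A u) = - u := by
    have := LinearMap.congr_fun hA u
    simpa using this
  by_cases h : A u + Complex.I • u = 0
  · refine ⟨-Complex.I, neg_ne_zero.2 Complex.I_ne_zero, u, huU, hu, ?_⟩
    rw [neg_smul]
    exact eq_neg_of_add_eq_zero_left h
  · refine ⟨Complex.I, Complex.I_ne_zero, A u + Complex.I • u,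
      U.add_mem (hAU u huU) (U.smul_mem _ huU), h, ?_⟩
    rw [map_add, map_smul, hA', smul_add, smul_smul, Complex.I_mul_I, neg_one_smul, add_comm]

private theorem Spin_core {V : Type} [AddCommGroup V] [Module ℂ V] [FiniteDimensional ℂ V]
    (A B C E : Module.End ℂ V) (hA : A * A = -1) (hB : B * B = -1) (hC : C * C = -1)
    (hE : E * E = -1) (hAB : A * B = B * A) (hAC : A * C = - (C * A)) (hBC : B * C = C * B)
    (hAE : A * E = E * A) (hBE : B * E = - (E * B)) (U : Submodule ℂ V) (hU : U ≠ ⊥)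
    (hAU : ∀ u ∈ U, A u ∈ U) (hBU : ∀ u ∈ U, B u ∈ U) (hCU : ∀ u ∈ U, C u ∈ U)
    (hEU : ∀ u ∈ U, E u ∈ U) : 4 ≤ finrank ℂ U := by
  obtain ⟨α, hα, u1, hu1, hu1', hu1A⟩ := Spin_eig A hA U hU hAU
  let U' : Submodule ℂ V := U ⊓ LinearMap.ker (A - α • (1 : Module.End ℂ V))
  have hmem : ∀ u, u ∈ U' ↔ u ∈ U ∧ A u = α • u := by
    intro u
    show u ∈ U ⊓ LinearMap.ker (A - α • (1 : Module.End ℂ V)) ↔ _
    rw [Submodule.mem_inf, LinearMap.mem_ker, LinearMap.sub_apply, LinearMap.smul_apply,
      Module.End.one_apply, sub_eq_zero]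
  have hU' : U' ≠ ⊥ := by
    intro h
    have h1 : u1 ∈ U' := (hmem u1).2 ⟨hu1, hu1A⟩
    rw [h, Submodule.mem_bot] at h1
    exact hu1' h1
  have ap : ∀ {X Y : Module.End ℂ V} (_ : X * Y = Y * X) (u : V), X (Y u) = Y (X u) :=
    fun {X Y} h u => by
      have := LinearMap.congr_fun h u
      simpa using this
  have an : ∀ {X Y : Module.End ℂ V} (_ : X * Y = - (Y * X)) (u : V), X (Y u) = - Y (X u) :=
    fun {X Y} h u => by
      have := LinearMap.congr_fun h u
      simpa using this
  have hBU' : ∀ u ∈ U', B u ∈ U' := by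
    intro u hu
    rw [hmem] at hu ⊢
    exact ⟨hBU u hu.1, by rw [ap hAB, hu.2, map_smul]⟩
  obtain ⟨β, hβ, u, hu, hu0, huB⟩ := Spin_eig B hB U' hU' hBU'
  rw [hmem] at hu
  obtain ⟨huU, huA⟩ := hu
  have hinj : ∀ {X : Module.End ℂ V} (_ : X * X = -1) (w : V), w ≠ 0 → X w ≠ 0 := by
    intro X hX w hw h
    have h1 : X (X w) = - w := by
      have := LinearMap.congr_fun hX w
      simpa using this
    rw [h, map_zero] at h1
    exact hw (neg_eq_zero.1 h1.symm)
  -- the four eigenvectors
  have a1 : A (C u) = -(α • C u) := by rw [an hAC, huA, map_smul]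
  have b1 : B (C u) = β • C u := by rw [ap hBC, huB, map_smul]
  have a2 : A (E u) = α • E u := by rw [ap hAE, huA, map_smul]
  have b2 : B (E u) = -(β • E u) := by rw [an hBE, huB, map_smul]
  have a3 : A (C (E u)) = -(α • C (E u)) := by rw [an hAC, a2, map_smul]
  have b3 : B (C (E u)) = -(β • C (E u)) := by rw [ap hBC, b2, map_neg, map_smul]
  have n1 := hinj hC u hu0
  have n2 := hinj hE u hu0
  have n3 := hinj hC (E u) n2
  have hli : LinearIndependent ℂ ![u, C u, E u, C (E u)] := by
    rw [Fintype.linearIndependent_iff]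
    intro g hg
    rw [Fin.sum_univ_four] at hg
    simp only [Matrix.cons_val_zero, Matrix.cons_val_one, Matrix.cons_val] at hg
    have hA1 := congrArg (fun w => A w) hg
    simp only [map_add, map_smul, map_zero, huA, a1, a2, a3] at hA1
    have e1 : g 0 • u + g 2 • E u = 0 := by
      have h1 : (2 * α) • (g 0 • u + g 2 • E u) = 0 := by
        have h2 : (2 * α) • (g 0 • u + g 2 • E u) =
            (g 0 • α • u + g 1 • -(α • C u) + g 2 • α • E u + g 3 • -(α • C (E u))) +
            α • (g 0 • u + g 1 • C u + g 2 • E u + g 3 • C (E u)) := by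
          module
        rw [h2, hA1, hg, smul_zero, add_zero]
      exact (smul_eq_zero.1 h1).resolve_left (mul_ne_zero two_ne_zero hα)
    have e2 : g 1 • C u + g 3 • C (E u) = 0 := by
      have h1 : g 0 • u + g 1 • C u + g 2 • E u + g 3 • C (E u) =
          (g 0 • u + g 2 • E u) + (g 1 • C u + g 3 • C (E u)) := by abel
      rw [h1, e1, zero_add] at hg
      exact hg
    have f1 := congrArg (fun w => B w) e1
    have f2 := congrArg (fun w => B w) e2
    simp only [map_add, map_smul, map_zero, huB, b1, b2, b3] at f1 f2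
    have g0 : g 0 • u = 0 := by
      have h1 : (2 * β) • (g 0 • u) = 0 := by
        have h2 : (2 * β) • (g 0 • u) = (g 0 • β • u + g 2 • -(β • E u)) +
            β • (g 0 • u + g 2 • E u) := by module
        rw [h2, f1, e1, smul_zero, add_zero]
      exact (smul_eq_zero.1 h1).resolve_left (mul_ne_zero two_ne_zero hβ)
    have g1 : g 1 • C u = 0 := by
      have h1 : (2 * β) • (g 1 • C u) = 0 := by
        have h2 : (2 * β) • (g 1 • C u) = (g 1 • β • C u + g 3 • -(β • C (E u))) +
            β • (g 1 • C u + g 3 • C (E u)) := by module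
        rw [h2, f2, e2, smul_zero, add_zero]
      exact (smul_eq_zero.1 h1).resolve_left (mul_ne_zero two_ne_zero hβ)
    have g2 : g 2 • E u = 0 := by
      rw [g0, zero_add] at e1
      exact e1
    have g3 : g 3 • C (E u) = 0 := by
      rw [g1, zero_add] at e2
      exact e2
    intro i
    fin_cases i
    · exact (smul_eq_zero.1 g0).resolve_right hu0
    · exact (smul_eq_zero.1 g1).resolve_right n1
    · exact (smul_eq_zero.1 g2).resolve_right n2
    · exact (smul_eq_zero.1 g3).resolve_right n3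
  have h1 : finrank ℂ (Submodule.span ℂ (Set.range ![u, C u, E u, C (E u)])) = 4 := by
    have := finrank_span_eq_card hli
    rw [Fintype.card_fin] at this
    exact this
  rw [← h1]
  refine Submodule.finrank_mono (Submodule.span_le.2 ?_)
  rintro w ⟨i, rfl⟩
  fin_cases i
  · exact huU
  · exact hCU u huU
  · exact hEU u huU
  · exact hCU _ (hEU u huU)

section rng

variable {M : Type} [Ring M]

private theorem Spin_L1 (x y : M) (hx : x * x = 1) (hy : y * y = 1) (h : y * x = - (x * y)) :
    (x * y) * (x * y) = -1 := by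
  calc (x * y) * (x * y) = x * (y * x) * y := by noncomm_ring
    _ = x * (- (x * y)) * y := by rw [h]
    _ = - ((x * x) * (y * y)) := by noncomm_ring
    _ = -1 := by rw [hx, hy, one_mul]

private theorem Spin_L2 (x y z w : M) (hzx : z * x = - (x * z)) (hzy : z * y = - (y * z))
    (hwx : w * x = - (x * w)) (hwy : w * y = - (y * w)) :
    (x * y) * (z * w) = (z * w) * (x * y) := by
  calc (x * y) * (z * w) = x * (y * z) * w := by noncomm_ring
    _ = x * (-(z * y)) * w := by rw [hzy, neg_neg]
    _ = - ((x * z) * (y * w)) := by noncomm_ring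
    _ = - ((-(z * x)) * (-(w * y))) := by rw [hzx, hwy, neg_neg, neg_neg]
    _ = - (z * (x * w) * y) := by noncomm_ring
    _ = - (z * (-(w * x)) * y) := by rw [hwx, neg_neg]
    _ = (z * w) * (x * y) := by noncomm_ring

private theorem Spin_L3 (x y z : M) (hx : x * x = 1) (hyx : y * x = - (x * y))
    (hzx : z * x = - (x * z)) (hzy : z * y = - (y * z)) :
    (x * y) * (x * z) = - ((x * z) * (x * y)) := by
  have h1 : (x * y) * (x * z) = - (y * z) := by
    calc (x * y) * (x * z) = x * (y * x) * z := by noncomm_ring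
      _ = x * (-(x * y)) * z := by rw [hyx]
      _ = - ((x * x) * (y * z)) := by noncomm_ring
      _ = - (y * z) := by rw [hx, one_mul]
  have h2 : (x * z) * (x * y) = y * z := by
    calc (x * z) * (x * y) = x * (z * x) * y := by noncomm_ring
      _ = x * (-(x * z)) * y := by rw [hzx]
      _ = - ((x * x) * (z * y)) := by noncomm_ring
      _ = y * z := by rw [hx, one_mul, hzy, neg_neg]
  rw [h1, h2]

end rng

theorem thm_Spin : St_Spin := by
  intro V _ _ _ s H hs hd hc U hU hst
  obtain ⟨o, ho⟩ := Spin_orth H hs hd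
  set e : Fin 5 → Module.End ℂ V := fun a => ∑ i, o a i • s i with he
  have hee : ∀ a b, e a * e b + e b * e a = (if a = b then (2 : ℂ) else 0) • 1 := by
    intro a b
    have h1 : e a * e b = ∑ i, ∑ j, (o a i * o b j) • (s i * s j) := by
      rw [he]
      simp only [Finset.sum_mul_sum, smul_mul_assoc, mul_smul_comm, smul_smul]
      refine Finset.sum_congr rfl fun i _ => Finset.sum_congr rfl fun j _ => ?_
      rw [mul_comm]
    have h2 : e b * e a = ∑ i, ∑ j, (o a i * o b j) • (s j * s i) := by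
      rw [he]
      simp only [Finset.sum_mul_sum, smul_mul_assoc, mul_smul_comm, smul_smul]
      rw [Finset.sum_comm]
    rw [h1, h2, ← Finset.sum_add_distrib]
    have h3 : ∀ i, (∑ j, (o a i * o b j) • (s i * s j)) + (∑ j, (o a i * o b j) • (s j * s i)) =
        ∑ j, (2 * (o a i * H i j * o b j)) • (1 : Module.End ℂ V) := by
      intro i
      rw [← Finset.sum_add_distrib]
      refine Finset.sum_congr rfl fun j _ => ?_
      rw [← smul_add, hc, smul_smul]
      congr 1
      ring
    rw [Finset.sum_congr rfl fun i _ => h3 i]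
    simp only [← Finset.sum_smul, ← Finset.mul_sum]
    rw [ho]
    by_cases hab : a = b
    · rw [if_pos hab, if_pos hab, mul_one]
    · rw [if_neg hab, if_neg hab, mul_zero]
  have hsq : ∀ a, e a * e a = 1 := by
    intro a
    have h1 := hee a a
    rw [if_pos rfl, ← two_smul ℂ (e a * e a)] at h1
    exact smul_right_injective _ (two_ne_zero (α := ℂ)) h1
  have han : ∀ a b, a ≠ b → e b * e a = - (e a * e b) := by
    intro a b hab
    have h1 := hee a b
    rw [if_neg hab, zero_smul] at h1
    exact eq_neg_of_add_eq_zero_right h1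
  have hUU : ∀ a b, ∀ u ∈ U, (e a * e b) u ∈ U := by
    intro a b u hu
    have h1 : e a * e b = ∑ i, ∑ j, (o b j * o a i) • (s i * s j) := by
      rw [he]
      simp only [Finset.sum_mul_sum, smul_mul_assoc, mul_smul_comm, smul_smul]
    rw [h1, LinearMap.sum_apply]
    refine U.sum_mem fun i _ => ?_
    rw [LinearMap.sum_apply]
    refine U.sum_mem fun j _ => ?_
    rw [LinearMap.smul_apply]
    exact U.smul_mem _ (hst i j u hu)
  exact Spin_core (e 0 * e 1) (e 2 * e 3) (e 0 * e 4) (e 2 * e 4)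
    (Spin_L1 _ _ (hsq 0) (hsq 1) (han 0 1 (by decide)))
    (Spin_L1 _ _ (hsq 2) (hsq 3) (han 2 3 (by decide)))
    (Spin_L1 _ _ (hsq 0) (hsq 4) (han 0 4 (by decide)))
    (Spin_L1 _ _ (hsq 2) (hsq 4) (han 2 4 (by decide)))
    (Spin_L2 _ _ _ _ (han 0 2 (by decide)) (han 1 2 (by decide)) (han 0 3 (by decide))
      (han 1 3 (by decide)))
    (Spin_L3 _ _ _ (hsq 0) (han 0 1 (by decide)) (han 0 4 (by decide)) (han 1 4 (by decide)))
    (Spin_L2 _ _ _ _ (han 2 0 (by decide)) (han 3 0 (by decide)) (han 2 4 (by decide))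
      (han 3 4 (by decide)))
    (Spin_L2 _ _ _ _ (han 0 2 (by decide)) (han 1 2 (by decide)) (han 0 4 (by decide))
      (han 1 4 (by decide)))
    (Spin_L3 _ _ _ (hsq 2) (han 2 3 (by decide)) (han 2 4 (by decide)) (han 3 4 (by decide)))
    U hU (hUU 0 1) (hUU 2 3) (hUU 0 4) (hUU 2 4)

end Pool.Agent.KSV
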