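import Pool.Agent.KSV.D4
import Pool.Agent.KSV.Ex3
import Pool.Agent.KSV.Spin
import Pool.Agent.KSV.Dims
import Pool.Agent.KSV.Hall5
import Pool.Agent.KSV.MainB

/-!
Kuga-Satake varieties, the split case of dimension five: assembly.
-/

set_option autoImplicit false

namespace Pool.Agent.KSV

theorem Hall5_ : St_Hall5 := thm_Hall5 thm_D4 thm_Ex3 thm_Spin thm_BvDim thm_SkDim

end Pool.Agent.KSV
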