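import Pool.Agent.KSR.Main
import Pool.Agent.KT.Alg.All

/-!
# Kuga-Satake varieties of quadratic spaces of dimension five with split Clifford algebra

Definitions and frozen statements. `m = 5`, `K = ℚ`, and the Kuga-Satake variety has a factor of
dimension two (a surface all Hodge endomorphisms of which are scalar).
-/

set_option autoImplicit false

namespace Pool.Agent.KSV

open Module Matrix NumberField Pool.Agent.Helper7 Pool.Agent.KS Pool.Agent.Ball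
  Pool.Agent.Helper28.GPC Pool.Agent.KSE Pool.Agent.KSR
open Pool.Agent.GPC (AbVar IsHodge IsGrothendieck Form OddSparse)
open Pool.Agent.KT.Alg (gg St_KT)

/-- there is a factor of dimension two without period vectors on rational curves -/
def Spl {κ : Type} [Fintype κ] [DecidableEq κ] {ϖ : ℂ} (P : PData κ ϖ) : Prop :=
  ∃ (κ' : Type) (_ : Fintype κ') (_ : DecidableEq κ') (Q : PData κ' ϖ)
    (f : (κ' → ℂ) →ₗ[ℂ] (κ → ℂ)) (g : (κ → ℂ) →ₗ[ℂ] (κ' → ℂ)),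
    Fintype.card κ' = 4 ∧ IsDRB Q P f ∧ IsDRB P Q g ∧ (∀ v, g (f v) = v) ∧
    ∀ v ∈ Q.Q, v ≠ 0 → ∀ (x c : ℂ) (p : κ' → Polynomial ℂ),
      (∀ s j, IsAlgebraic ℚ ((p s).coeff j)) → ¬ ∀ s, v s = c * (p s).eval x

/-- the condition on the rank: not five, or `K = ℚ` and there is a factor of dimension two -/
def Ok {κ : Type} [Fintype κ] [DecidableEq κ] {ϖ : ℂ} (P : PData κ ϖ) (K : Type) [Field K]
    [NumberField K] (m : ℕ) : Prop :=
  m ≠ 5 ∨ (finrank ℚ K = 1 ∧ Spl P)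

/-- the operators which are skew for a form -/
def Sk {V : Type} [AddCommGroup V] [Module ℂ V] (ω : V →ₗ[ℂ] V →ₗ[ℂ] ℂ) :
    Submodule ℂ (Module.End ℂ V) where
  carrier := {Y | ∀ u v, ω (Y u) v + ω u (Y v) = 0}
  add_mem' := by
    intro Y Z hY hZ u v
    simp only [LinearMap.add_apply, map_add]
    linear_combination hY u v + hZ u v
  zero_mem' := by
    intro u v
    simp
  smul_mem' := by
    intro c Y hY u v
    simp only [LinearMap.smul_apply, map_smul, smul_eq_mul]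
    linear_combination c * hY u v

/-- [D4] irreducible Lie algebras of skew operators in dimension four: all skew operators, or the
image of `sl_2` in the third symmetric power -/
def St_D4 : Prop := ∀ (V : Type) [AddCommGroup V] [Module ℂ V] [FiniteDimensional ℂ V],
  finrank ℂ V = 4 → ∀ (ω : V →ₗ[ℂ] V →ₗ[ℂ] ℂ), (∀ x y, ω x y = - ω y x) →
  (∀ x, (∀ y, ω x y = 0) → x = 0) → ∀ (𝔪 : Submodule ℂ (Module.End ℂ V)),
  (∀ X ∈ 𝔪, ∀ Y ∈ 𝔪, X * Y - Y * X ∈ 𝔪) → 𝔪 ≤ Sk ω →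
  (∀ W : Submodule ℂ V, (∀ X ∈ 𝔪, ∀ w ∈ W, X w ∈ W) → W = ⊥ ∨ W = ⊤) →
  Sk ω ≤ 𝔪 ∨ ∃ A : Basis (Fin 4) ℂ V,
    (∀ Y ∈ 𝔪, ∃ a b c : ℂ, LinearMap.toMatrix A A Y = gg a b c) ∧
    ∀ a b c : ℂ, Matrix.toLin A A (gg a b c) ∈ 𝔪

/-- [Ex3] in the second case of [D4] there is a rational vector on a rational curve -/
def St_Ex3 : Prop := ∀ (κ : Type) [Fintype κ] [DecidableEq κ] (ϖ : ℂ) (P : PData κ ϖ),
  Fintype.card κ = 4 → ∀ (𝔪 : Submodule ℂ (Module.End ℂ (κ → ℂ))),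
  𝔪 ≤ Submodule.span ℂ {Y | Y ∈ 𝔪 ∧ ∀ v ∈ P.Q, Y v ∈ P.Q} →
  𝔪 ≤ Submodule.span ℂ {Y | Y ∈ 𝔪 ∧ ∀ v : κ → ℂ, (∀ j, IsAlgebraic ℚ (v j)) →
    ∀ j, IsAlgebraic ℚ (Y v j)} →
  ∀ A : Basis (Fin 4) ℂ (κ → ℂ),
  (∀ Y ∈ 𝔪, ∃ a b c : ℂ, LinearMap.toMatrix A A Y = gg a b c) →
  (∀ a b c : ℂ, Matrix.toLin A A (gg a b c) ∈ 𝔪) →
  ∃ v ∈ P.Q, v ≠ 0 ∧ ∃ (x c : ℂ) (p : κ → Polynomial ℂ),
    (∀ s j, IsAlgebraic ℚ ((p s).coeff j)) ∧ ∀ s, v s = c * (p s).eval x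

/-- [Spin] a subspace stable under the products of two Clifford operators (form of dimension five)
has dimension at least four -/
def St_Spin : Prop := ∀ (V : Type) [AddCommGroup V] [Module ℂ V] [FiniteDimensional ℂ V]
  (s : Fin 5 → Module.End ℂ V) (H : Matrix (Fin 5) (Fin 5) ℂ), Hᵀ = H → H.det ≠ 0 →
  (∀ a b, s a * s b + s b * s a = (2 * H a b) • (1 : Module.End ℂ V)) →
  ∀ U : Submodule ℂ V, U ≠ ⊥ → (∀ a b, ∀ u ∈ U, s a (s b u) ∈ U) → 4 ≤ finrank ℂ U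

/-- [BvDim] the dimension of the orthogonal Lie algebra is at most ten -/
def St_BvDim : Prop := ∀ (V : Type) [AddCommGroup V] [Module ℂ V] (K : Type) [Field K]
  [NumberField K], finrank ℚ K = 1 → ∀ t : Fin 5 → K → Module.End ℂ V, finrank ℂ (bvS t) ≤ 10

/-- [SkDim] the dimension of the symplectic Lie algebra is at least ten -/
def St_SkDim : Prop := ∀ (V : Type) [AddCommGroup V] [Module ℂ V] [FiniteDimensional ℂ V],
  finrank ℂ V = 4 → ∀ (ω : V →ₗ[ℂ] V →ₗ[ℂ] ℂ), (∀ x y, ω x y = - ω y x) →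
  10 ≤ finrank ℂ (Sk ω)

/-- [Hall5] at a factor with `m = 5`, `K = ℚ` which has a factor of dimension two the symmetries act
by all skew matrices -/
def St_Hall5 : Prop := ∀ (I : Type) [Fintype I] [DecidableEq I] (n : I → ℕ) (κ : I → Type)
  [∀ i, Fintype (κ i)] [∀ i, DecidableEq (κ i)] (ϖ : ℂ), ϖ ≠ 0 → ∀ (P : ∀ i, PData (κ i) ϖ)
  (K : I → Type) [∀ i, Field (K i)] [∀ i, NumberField (K i)] (c : ∀ i, K i →+* K i) (m : I → ℕ)
  (h : ∀ i, Matrix (Fin (m i)) (Fin (m i)) (K i))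
  (t : ∀ i, Fin (m i) → K i → Module.End ℂ (κ i → ℂ)),
  (∀ i, MD (P i) (c i) (h i) (t i)) → ∀ (k : ℕ)
  (γ : MultilinearMap ℂ (fun _ : Fin (2 * k) => HW κ n) ℂ),
  (∀ v : Fin (2 * k) → HW κ n, (∀ r, IsRatP n P (v r)) → ∃ q : ℚ, γ v = ϖ ^ k * q) →
  (∀ v : Fin (2 * k) → HW κ n, (∀ r i m j, IsAlgebraic ℚ (v r i m j)) → IsAlgebraic ℚ (γ v)) →
  (∀ i, HNd (P i)) → (∀ i (σ : K i →+* ℂ), cj σ = σ) →
  (∀ X : GG κ, IsInv n P γ X → ∀ i, ∃ M, ActM (t i) (X.1 i) M) →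
  ∀ i : I, Nonempty (κ i) → m i = 5 → finrank ℚ (K i) = 1 → Spl (P i) →
  ∀ (σ : K i →+* ℂ) (Z : Matrix (Fin (m i)) (Fin (m i)) ℂ), SkP (h i) σ Z →
  ∃ M ∈ RRE n P h t γ, M ⟨i, σ⟩ = Z

/-- [Surf] a generic surface with a non-zero morphism to `A` is a factor of `A` as above -/
def St_Surf : Prop := St_KT → ∀ B A : AbVar, B.IsGenericSurface → ∀ f : B.H1 → A.H1,
  B.IsMor A f → (∃ v, f v ≠ 0) → Spl (pData A)

/-- [Main] Grothendieck classes are Hodge classes, the case of real fields -/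
def St_Main : Prop := ∀ {I : Type} [Fintype I] (A : I → AbVar) {K : I → Type}
  [∀ i, Field (K i)] [∀ i, NumberField (K i)] {c : ∀ i, K i →+* K i} {m : I → ℕ}
  (_ : ∀ i, (A i).KugaSatakeMul (K i) (c i) (m i)), (∀ i, c i = RingHom.id (K i)) →
  (∀ i, 3 ≤ m i) → (∀ i, Ok (pData (A i)) (K i) (m i)) → ((∀ i, m i ≠ 4) ∨ Subsingleton I) →
  (∀ i j, i ≠ j → ∀ f, (A i).IsMor (A j) f → ∀ v, f v = 0) → ∀ (n : I → ℕ) (k : ℕ)
  (α : Form A n (2 * k)), IsGrothendieck A n k α → IsHodge A n k α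

end Pool.Agent.KSV
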