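import Pool.Agent.KSP.LinkHyp

/-!
The link of two real orthogonal Lie algebras, also in dimension five.
-/

set_option autoImplicit false

namespace Pool.Agent.KSV

open Module Matrix Pool.Agent.KS Pool.Agent.KSP Pool.Agent.KSP.LinkHyp Pool.Agent.KS.WittAux

variable {n : ℕ}

theorem real_form5 {G : Matrix (Fin n) (Fin n) ℝ} (hG : Gᵀ = G) (h : Sig2 G) (hn : n = 3 ∨ 5 ≤ n)
    {D : Module.End ℂ (Fin n → ℂ)} (hD0 : D ≠ 0) (hD : Skw (bil G) D)
    (hc : ∀ Y, Skw (bil G) Y → cm D (cm D (cm D Y)) = cm D Y)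
    (hstar : ∀ v, D (star v) = star (D v)) :
    ∃ e f : Fin n → ℝ, e ⬝ᵥ (G *ᵥ e) = 0 ∧ f ⬝ᵥ (G *ᵥ f) = 0 ∧ e ⬝ᵥ (G *ᵥ f) = 1 ∧
      D = wed (bil G) (cx e) (cx f) := by
  have hs : ∀ u v, bil G u v = bil G v u := bil_symm hG
  have hnd : ∀ v, v ≠ 0 → ∃ z, bil G v z = 1 := by
    intro v hv
    by_contra hcon
    push Not at hcon
    apply hv
    apply (sig2_nondeg G hG h).1
    intro z
    by_contra hz
    apply hcon ((bil G v z)⁻¹ • z)
    rw [map_smul, smul_eq_mul, inv_mul_cancel₀ hz]
  have hfr : finrank ℂ (Fin n → ℂ) = n := Module.finrank_fin_fun ℂ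
  have h3 : 3 ≤ finrank ℂ (Fin n → ℂ) := by
    rw [hfr]
    omega
  -- a kernel
  have hker : ∃ v, v ≠ 0 ∧ D v = 0 := by
    rcases dich hs hnd h3 hD hc with h4 | h4
    · exact h4
    have hBd : ∀ v, v ∈ Submodule.span ℂ {w | ∃ r : ℝ, D w = (r : ℂ) • w} := by
      intro v
      have h5 : v = ((1 / 2 : ℂ) • v + D v) + ((1 / 2 : ℂ) • v - D v) := by module
      rw [h5]
      refine Submodule.add_mem _ (Submodule.subset_span ⟨1 / 2, ?_⟩)
        (Submodule.subset_span ⟨-1 / 2, ?_⟩)
      · rw [map_add, map_smul, h4]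
        push_cast
        module
      · rw [map_sub, map_smul, h4]
        push_cast
        module
    rcases witt G hG h D hD0 hD hstar hBd with ⟨e, f, a, -, -, -, -, hDe⟩ |
      ⟨e1, e2, f1, f2, a, b, h11, h12, h22, g11, g12, g22, k11, k12, k21, k22, -, -, -, hDe⟩
    · obtain ⟨x, hx0, hx⟩ := exists_common ![bil G (cx e), bil G (cx f)] (by omega)
      refine ⟨x, hx0, ?_⟩
      have hx1 : bil G (cx e) x = 0 := hx 0
      have hx2 : bil G (cx f) x = 0 := hx 1
      rw [hDe, LinearMap.smul_apply, wed_apply, hx1, hx2, zero_smul, zero_smul, sub_zero,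
        smul_zero]
    · rcases hn with hn | hn
      · exfalso
        subst hn
        have hli : LinearIndependent ℝ ![e1, e2, f1, f2] := by
          rw [Fintype.linearIndependent_iff]
          intro g hg
          rw [Fin.sum_univ_four] at hg
          simp only [Matrix.cons_val_zero, Matrix.cons_val_one, Matrix.cons_val] at hg
          have w1 := congrArg (fun x => wbil G x e1) hg
          have w2 := congrArg (fun x => wbil G x e2) hg
          have w3 := congrArg (fun x => wbil G x f1) hg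
          have w4 := congrArg (fun x => wbil G x f2) hg
          rw [← wbil_apply] at h11 h12 h22 g11 g12 g22 k11 k12 k21 k22
          have h21 : wbil G e2 e1 = 0 := by rw [wbil_symm G hG, h12]
          have g21 : wbil G f2 f1 = 0 := by rw [wbil_symm G hG, g12]
          have m11 : wbil G f1 e1 = 1 := by rw [wbil_symm G hG, k11]
          have m12 : wbil G f1 e2 = 0 := by rw [wbil_symm G hG, k21]
          have m21 : wbil G f2 e1 = 0 := by rw [wbil_symm G hG, k12]
          have m22 : wbil G f2 e2 = 1 := by rw [wbil_symm G hG, k22]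
          simp only [map_add, map_smul, LinearMap.add_apply, LinearMap.smul_apply, smul_eq_mul,
            h11, h12, h22, g11, g12, g22, k11, k12, k21, k22, h21, g21, m11, m12, m21, m22,
            map_zero, LinearMap.zero_apply, mul_zero, mul_one, zero_add, add_zero] at w1 w2 w3 w4
          intro i
          fin_cases i
          · exact w3
          · exact w4
          · exact w1
          · exact w2
        have := hli.fintype_card_le_finrank
        rw [Fintype.card_fin, Module.finrank_fin_fun] at this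
        omega
      · obtain ⟨x, hx0, hx⟩ := exists_common ![bil G (cx e1), bil G (cx e2), bil G (cx f1),
          bil G (cx f2)] (by omega)
        refine ⟨x, hx0, ?_⟩
        have hx1 : bil G (cx e1) x = 0 := hx 0
        have hx2 : bil G (cx e2) x = 0 := hx 1
        have hx3 : bil G (cx f1) x = 0 := hx 2
        have hx4 : bil G (cx f2) x = 0 := hx 3
        rw [hDe, LinearMap.add_apply, LinearMap.smul_apply, LinearMap.smul_apply, wed_apply,
          wed_apply, hx1, hx2, hx3, hx4]
        simp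
  obtain ⟨v0, hv0, hDv0⟩ := hker
  have hcube := cube hs hnd hD hc hv0 hDv0
  have hBd : ∀ v, v ∈ Submodule.span ℂ {w | ∃ r : ℝ, D w = (r : ℂ) • w} := by
    intro v
    have h5 : v = (v - D (D v)) + (1 / 2 : ℂ) • (D (D v) + D v) +
        (1 / 2 : ℂ) • (D (D v) - D v) := by module
    rw [h5]
    refine Submodule.add_mem _ (Submodule.add_mem _ (Submodule.subset_span ⟨0, ?_⟩)
      (Submodule.smul_mem _ _ (Submodule.subset_span ⟨1, ?_⟩)))
      (Submodule.smul_mem _ _ (Submodule.subset_span ⟨-1, ?_⟩))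
    · rw [map_sub, hcube]
      push_cast
      module
    · rw [map_add, hcube]
      push_cast
      module
    · rw [map_sub, hcube]
      push_cast
      module
  rcases witt G hG h D hD0 hD hstar hBd with ⟨e, f, a, he, hf, hef, ha, hDe⟩ |
    ⟨e1, e2, f1, f2, a, b, h11, h12, h22, g11, g12, g22, k11, k12, k21, k22, -, hb, hab, hDe⟩
  · have qe : bil G (cx e) (cx e) = 0 := by rw [KS.bil_cx, he, Complex.ofReal_zero]
    have qf : bil G (cx f) (cx f) = 0 := by rw [KS.bil_cx, hf, Complex.ofReal_zero]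
    have qef : bil G (cx e) (cx f) = 1 := by rw [KS.bil_cx, hef, Complex.ofReal_one]
    have qfe : bil G (cx f) (cx e) = 1 := by rw [hs, qef]
    have hDee : D (cx e) = (a : ℂ) • cx e := by
      rw [hDe, LinearMap.smul_apply, wed_apply, qe, qfe, zero_smul, sub_zero, one_smul]
    have h6 := hcube (cx e)
    rw [hDee, map_smul, map_smul, hDee, map_smul, hDee] at h6
    have h7 : ((a : ℂ) ^ 3 - a) • cx e = 0 := by
      linear_combination (norm := module) h6
    have hcxe : cx e ≠ 0 := by
      intro h0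
      rw [h0] at qef
      simp at qef
    have h8 : (a : ℂ) ^ 3 - a = 0 := (smul_eq_zero.1 h7).resolve_right hcxe
    have h9 : a ^ 3 - a = 0 := by exact_mod_cast h8
    have h10 : a = 1 ∨ a = -1 := by
      have h11 : a * ((a - 1) * (a + 1)) = 0 := by linear_combination h9
      rcases mul_eq_zero.1 h11 with h12 | h12
      · exact absurd h12 ha
      · rcases mul_eq_zero.1 h12 with h13 | h13
        · left; linarith
        · right; linarith
    rcases h10 with h10 | h10
    · refine ⟨e, f, he, hf, hef, ?_⟩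
      rw [hDe, h10, Complex.ofReal_one, one_smul]
    · refine ⟨f, e, hf, he, ?_, ?_⟩
      · rw [← wbil_apply, wbil_symm G hG, wbil_apply]
        exact hef
      · rw [hDe, h10]
        apply LinearMap.ext
        intro z
        rw [LinearMap.smul_apply, wed_apply, wed_apply]
        push_cast
        module
  · exfalso
    have q11 : bil G (cx e1) (cx e1) = 0 := by rw [KS.bil_cx, h11, Complex.ofReal_zero]
    have q12 : bil G (cx e1) (cx e2) = 0 := by rw [KS.bil_cx, h12, Complex.ofReal_zero]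
    have q22 : bil G (cx e2) (cx e2) = 0 := by rw [KS.bil_cx, h22, Complex.ofReal_zero]
    have q21 : bil G (cx e2) (cx e1) = 0 := by rw [hs, q12]
    have r11 : bil G (cx e1) (cx f1) = 1 := by rw [KS.bil_cx, k11, Complex.ofReal_one]
    have r12 : bil G (cx e1) (cx f2) = 0 := by rw [KS.bil_cx, k12, Complex.ofReal_zero]
    have r21 : bil G (cx e2) (cx f1) = 0 := by rw [KS.bil_cx, k21, Complex.ofReal_zero]
    have r22 : bil G (cx e2) (cx f2) = 1 := by rw [KS.bil_cx, k22, Complex.ofReal_one]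
    have s11 : bil G (cx f1) (cx e1) = 1 := by rw [hs, r11]
    have s12 : bil G (cx f1) (cx e2) = 0 := by rw [hs, r21]
    have s21 : bil G (cx f2) (cx e1) = 0 := by rw [hs, r12]
    have s22 : bil G (cx f2) (cx e2) = 1 := by rw [hs, r22]
    have hD1 : D (cx e1) = (a : ℂ) • cx e1 := by
      rw [hDe, LinearMap.add_apply, LinearMap.smul_apply, LinearMap.smul_apply, wed_apply,
        wed_apply, q11, q21, s11, s21]
      module
    have hD2 : D (cx e2) = (b : ℂ) • cx e2 := by
      rw [hDe, LinearMap.add_apply, LinearMap.smul_apply, LinearMap.smul_apply, wed_apply,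
        wed_apply, q12, q22, s12, s22]
      module
    have hc1 : cx e1 ≠ 0 := by
      intro h0
      rw [h0] at r11
      simp at r11
    have hc2 : cx e2 ≠ 0 := by
      intro h0
      rw [h0] at r22
      simp at r22
    have one : ∀ (c : ℝ) (x : Fin n → ℝ), 0 < c → cx x ≠ 0 → D (cx x) = (c : ℂ) • cx x →
        c = 1 := by
      intro c x hc0 hx0 hDx
      have h6 := hcube (cx x)
      rw [hDx, map_smul, map_smul, hDx, map_smul, hDx] at h6
      have h7 : ((c : ℂ) ^ 3 - c) • cx x = 0 := by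
        linear_combination (norm := module) h6
      have h8 : (c : ℂ) ^ 3 - c = 0 := (smul_eq_zero.1 h7).resolve_right hx0
      have h9 : c ^ 3 - c = 0 := by exact_mod_cast h8
      have h11 : c * ((c - 1) * (c + 1)) = 0 := by linear_combination h9
      rcases mul_eq_zero.1 h11 with h12 | h12
      · exact absurd h12 hc0.ne'
      · rcases mul_eq_zero.1 h12 with h13 | h13
        · linarith
        · linarith
    have ha1 := one a e1 (hb.trans_le hab) hc1 hD1
    have hb1 := one b e2 hb hc2 hD2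
    rw [ha1, Complex.ofReal_one, one_smul] at hD1
    rw [hb1, Complex.ofReal_one, one_smul] at hD2
    have hk := LinearMap.congr_fun (key hs hD hc (cx e1) (cx e2)) (cx f1)
    simp only [hD1, hD2, LinearMap.add_apply, LinearMap.smul_apply, wed_apply, r21, r11,
      zero_smul, one_smul, zero_sub] at hk
    have h0 : (-6 : ℂ) • cx e2 = 0 := by
      linear_combination (norm := module) hk
    rcases smul_eq_zero.1 h0 with h6 | h6
    · norm_num at h6
    · exact hc2 h6

theorem link_hyp5 {n n' : ℕ} (hn : n = 3 ∨ 5 ≤ n) (hn' : n' = 3 ∨ 5 ≤ n')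
    (G : Matrix (Fin n) (Fin n) ℝ) (hG : Gᵀ = G) (hsig : Sig2 G ∨ Sig2 (-G))
    (G' : Matrix (Fin n') (Fin n') ℝ) (hG' : G'ᵀ = G') (hsig' : Sig2 G' ∨ Sig2 (-G'))
    (R : Submodule ℂ (Module.End ℂ (Fin n → ℂ) × Module.End ℂ (Fin n' → ℂ)))
    (hbr : ∀ X ∈ R, ∀ Y ∈ R, X * Y - Y * X ∈ R)
    (hsk : ∀ X ∈ R, Skw (bil G) X.1 ∧ Skw (bil G') X.2)
    (hpr : ∀ A, Skw (bil G) A → ∃ X ∈ R, X.1 = A) (hpr' : ∀ A, Skw (bil G') A → ∃ X ∈ R, X.2 = A)
    (hl : ∀ X ∈ R, X.1 = 0 ↔ X.2 = 0)
    (hconj : ∀ X ∈ R, ∃ X' ∈ R, (∀ v, X'.1 v = star (X.1 (star v))) ∧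
      ∀ v, X'.2 v = star (X.2 (star v))) :
    ∃ (e f : Fin n → ℝ) (e' f' : Fin n' → ℝ), e ⬝ᵥ (G *ᵥ e) = 0 ∧ f ⬝ᵥ (G *ᵥ f) = 0 ∧
      e ⬝ᵥ (G *ᵥ f) = 1 ∧ e' ⬝ᵥ (G' *ᵥ e') = 0 ∧ f' ⬝ᵥ (G' *ᵥ f') = 0 ∧ e' ⬝ᵥ (G' *ᵥ f') = 1 ∧
      (wed (bil G) (cx e) (cx f), wed (bil G') (cx e') (cx f')) ∈ R := by
  obtain ⟨e, f, he, hf, hef⟩ := exists_pair hG (by omega) hsig
  have hs : ∀ u v, bil G u v = bil G v u := bil_symm hG
  have qe : bil G (cx e) (cx e) = 0 := by rw [KS.bil_cx, he, Complex.ofReal_zero]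
  have qf : bil G (cx f) (cx f) = 0 := by rw [KS.bil_cx, hf, Complex.ofReal_zero]
  have qef : bil G (cx e) (cx f) = 1 := by rw [KS.bil_cx, hef, Complex.ofReal_one]
  have qfe : bil G (cx f) (cx e) = 1 := by rw [hs, qef]
  obtain ⟨X, hX, hX1⟩ := hpr _ (wed_skw hs (cx e) (cx f))
  have hD : Skw (bil G') X.2 := (hsk X hX).2
  -- nonzero
  have hX10 : X.1 ≠ 0 := by
    intro h0
    have h1 := LinearMap.congr_fun h0 (cx e)
    rw [hX1, wed_apply, qe, qfe, zero_smul, sub_zero, one_smul, LinearMap.zero_apply] at h1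
    rw [h1] at qef
    simp at qef
  have hD0 : X.2 ≠ 0 := fun h0 => hX10 ((hl X hX).2 h0)
  -- real
  have hstar : ∀ v, X.2 (star v) = star (X.2 v) := by
    obtain ⟨X', hX', h1, h2⟩ := hconj X hX
    have h3 : (X - X').1 = 0 := by
      apply LinearMap.ext
      intro v
      rw [Prod.fst_sub, LinearMap.sub_apply, h1, hX1, wed_apply, wed_apply, star_sub, star_smul,
        star_smul, star_cx, star_cx, ← bil_star, ← bil_star, star_cx, star_cx, star_star, sub_self,
        LinearMap.zero_apply]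
    have h4 := (hl _ (R.sub_mem hX hX')).1 h3
    intro v
    have h5 := LinearMap.congr_fun h4 (star v)
    rw [Prod.snd_sub, LinearMap.sub_apply, h2, star_star, LinearMap.zero_apply] at h5
    exact sub_eq_zero.1 h5
  -- the cubic relation
  have hcm : ∀ A ∈ R, ∀ B ∈ R, ((cm A.1 B.1, cm A.2 B.2) :
      Module.End ℂ (Fin n → ℂ) × Module.End ℂ (Fin n' → ℂ)) ∈ R := by
    intro A hA B hB
    exact hbr A hA B hB
  have hc : ∀ Y, Skw (bil G') Y → cm X.2 (cm X.2 (cm X.2 Y)) = cm X.2 Y := by
    intro Y hY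
    obtain ⟨Z, hZ, hZY⟩ := hpr' Y hY
    have h1 := hcm X hX Z hZ
    have h2 := hcm X hX _ h1
    have h3 := hcm X hX _ h2
    have h4 := R.sub_mem h3 h1
    have h5 := (hl _ h4).1 (by
      show cm X.1 (cm X.1 (cm X.1 Z.1)) - cm X.1 Z.1 = 0
      rw [hX1, wed_cube hs qe qf qef (hsk Z hZ).1, sub_self])
    have h6 : cm X.2 (cm X.2 (cm X.2 Z.2)) - cm X.2 Z.2 = 0 := h5
    rw [hZY] at h6
    exact sub_eq_zero.1 h6
  rcases hsig' with h' | h'
  · obtain ⟨e', f', he', hf', hef', hDe⟩ := real_form5 hG' h' hn' hD0 hD hc hstar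
    refine ⟨e, f, e', f', he, hf, hef, he', hf', hef', ?_⟩
    rw [← hX1, ← hDe]
    exact hX
  · have hGn : (-G')ᵀ = -G' := by rw [Matrix.transpose_neg, hG']
    have hskn : ∀ Y, Skw (bil (-G')) Y ↔ Skw (bil G') Y := by
      intro Y
      unfold Skw
      rw [bil_neg]
      simp only [LinearMap.neg_apply]
      constructor
      · intro h1 u v
        linear_combination - h1 u v
      · intro h1 u v
        linear_combination - h1 u v
    obtain ⟨e', f', he', hf', hef', hDe⟩ := real_form5 hGn h' hn' hD0 ((hskn _).2 hD)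
      (fun Y hY => hc Y ((hskn Y).1 hY)) hstar
    rw [← wbil_apply, wbil_neg] at he' hf' hef'
    refine ⟨e, f, e', -f', he, hf, hef, ?_, ?_, ?_, ?_⟩
    · rw [← wbil_apply]
      linarith
    · rw [← wbil_apply]
      simp only [map_neg, LinearMap.neg_apply, neg_neg]
      linarith
    · rw [← wbil_apply, map_neg]
      exact hef'
    · have h1 : wed (bil G') (cx e') (cx (-f')) = X.2 := by
        rw [hDe]
        apply LinearMap.ext
        intro z
        have h2 : cx (-f') = - cx f' := by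
          funext i
          simp [cx]
        rw [wed_apply, wed_apply, h2, bil_neg]
        simp only [map_neg, LinearMap.neg_apply]
        module
      rw [← hX1, h1]
      exact hX

end Pool.Agent.KSV
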