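import Pool.Agent.KSR.AVA
import Pool.Agent.KSV.FinalB

/-!
Grothendieck classes on products of powers of Kuga-Satake varieties with totally real multiplication are
Hodge classes, also in the split case of dimension five.
-/

set_option autoImplicit false

namespace Pool.Agent.KSV

open Module Matrix NumberField Pool.Agent.Helper7 Pool.Agent.KS Pool.Agent.Ball
  Pool.Agent.Helper28.GPC Pool.Agent.KSE Pool.Agent.KSR
open Pool.Agent.GPC (AbVar IsHodge IsGrothendieck Form IsBetti IsDeRham IsFil H1)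

/-- the Lie algebras of the factors kill the Grothendieck classes -/
theorem kill_avB {I : Type} [Fintype I] [DecidableEq I] (A : I → AbVar) {K : I → Type}
    [∀ i, Field (K i)] [∀ i, NumberField (K i)] {c : ∀ i, K i →+* K i}
    {m : I → ℕ}
    (S : ∀ i, (A i).KugaSatakeMul (K i) (c i) (m i)) (hc : ∀ i, c i = RingHom.id (K i))
    (hg : ∀ i, (A i).g ≠ 0)
    (h5 : St_Hall5) (hm3 : ∀ i, 3 ≤ m i) (hm5 : ∀ i, Ok (pData (A i)) (K i) (m i))
    (hm4 : (∀ i, m i ≠ 4) ∨ Subsingleton I)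
    (hHom : ∀ i j, i ≠ j → ∀ f, (A i).IsMor (A j) f → ∀ v, f v = 0) (n : I → ℕ) (k : ℕ)
    (α : MultilinearMap ℂ (fun _ : Fin (2 * k) => HW (fun i => Fin (A i).g ⊕ Fin (A i).g) n) ℂ)
    (hB : ∀ v : Fin (2 * k) → HW (fun i => Fin (A i).g ⊕ Fin (A i).g) n,
      (∀ r, IsRatP n (fun i => pData (A i)) (v r)) →
      ∃ q : ℚ, α v = (2 * Real.pi * Complex.I) ^ k * q)
    (hA : ∀ v : Fin (2 * k) → HW (fun i => Fin (A i).g ⊕ Fin (A i).g) n,
      (∀ r i m j, IsAlgebraic ℚ (v r i m j)) → IsAlgebraic ℚ (α v)) (i : I)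
    (Z : Module.End ℂ (A i).H1) (hZ : Z ∈ bvS (lt (A i) (S i))) :
    actForm (lift n (Pi.single i Z)) α = 0 := by
  have hϖ := Complex.two_pi_I_ne_zero
  have hκ : ∀ i, Nonempty (Fin (A i).g ⊕ Fin (A i).g) := fun i =>
    ⟨Sum.inl ⟨0, Nat.pos_of_ne_zero (hg i)⟩⟩
  choose σ₀ x hx hx1 hx2 using fun i => (S i).hodge
  have hreal : ∀ i (σ : K i →+* ℂ), cj σ = σ := by
    intro i σ
    ext y
    rw [(S i).conjugation, hc i]
    rfl
  have hnd := fun i => k3_nd (S i).conjugation (S i).hermitian (hx i)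
  have M := fun i => mde (A i) (S i) (hnd i)
  have hxx : ∀ i, pr (S i).h (σ₀ i) (x i) (x i) = 0 := by
    intro i
    have h1 := tau_pair (M i).conj (M i).cliff (σ₀ i) (x i) (x i)
    rw [hreal i (σ₀ i)] at h1
    have h3 : tau (ts (lt (A i) (S i)) (σ₀ i)) (x i) * tau (ts (lt (A i) (S i)) (σ₀ i)) (x i) = 0 := by
      apply LinearMap.ext
      intro v
      have hev : ∀ v, tau (ts (lt (A i) (S i)) (σ₀ i)) (x i) v =
          ∑ a, x i a • (S i).e (σ₀ i) a v := by
        intro v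
        rw [tau_apply, LinearMap.sum_apply]
        refine Finset.sum_congr rfl fun a _ => ?_
        rw [LinearMap.smul_apply, ts_lt]
        rfl
      show tau (ts (lt (A i) (S i)) (σ₀ i)) (x i) (tau (ts (lt (A i) (S i)) (σ₀ i)) (x i) v) = 0
      rw [hev (tau (ts (lt (A i) (S i)) (σ₀ i)) (x i) v)]
      apply hx2
      rw [hev]
      exact hx1 i v
    rw [h3, add_zero] at h1
    rcases smul_eq_zero.mp h1.symm with h4 | h4
    · simpa using h4
    · exact absurd h4 one_ne_zero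
  refine kill_formB n hϖ (fun i => pData (A i)) M α hB hA (fun i => hnd_pData (A i)) hreal σ₀
    (fun i => k3_sig2 (S i).conjugation (S i).hermitian (hx i) (hreal i (σ₀ i)) (hxx i))
    (fun i σ hσ => k3_def (S i).conjugation (S i).hermitian (hx i) σ hσ (by
      rw [hreal i (σ₀ i)]; exact hσ)) ?_ h5 hm3 hm5 hm4 i Z hZ
  intro i j hij f hf
  apply LinearMap.ext
  intro v
  have h1 := (isDRB_iff (A i) (A j) f).mp hf
  exact hHom i j hij f ⟨f.isLinear, h1.1, h1.2,
    Pool.Agent.GPC.hom_fil (A i) (A j) f f.isLinear h1.1 h1.2⟩ v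

theorem main_posB {I : Type} [Fintype I] (A : I → AbVar) {K : I → Type}
    [∀ i, Field (K i)] [∀ i, NumberField (K i)] {c : ∀ i, K i →+* K i} {m : I → ℕ}
    (S : ∀ i, (A i).KugaSatakeMul (K i) (c i) (m i)) (hc : ∀ i, c i = RingHom.id (K i))
    (hg : ∀ i, (A i).g ≠ 0)
    (h5 : St_Hall5) (hm3 : ∀ i, 3 ≤ m i) (hm5 : ∀ i, Ok (pData (A i)) (K i) (m i))
    (hm4 : (∀ i, m i ≠ 4) ∨ Subsingleton I)
    (hHom : ∀ i j, i ≠ j → ∀ f, (A i).IsMor (A j) f → ∀ v, f v = 0) (n : I → ℕ) (k : ℕ)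
    (α : Form A n (2 * k)) (hα : IsGrothendieck A n k α) : IsHodge A n k α := by
  classical
  obtain ⟨hα1, hα2⟩ := hα
  refine ⟨hα2, fun v J hJ hv => ?_⟩
  obtain ⟨α', hα'⟩ : ∃ α' : MultilinearMap ℂ (fun _ : Fin (2 * k) =>
    HW (fun i => Fin (A i).g ⊕ Fin (A i).g) n) ℂ, α' = (α : MultilinearMap ℂ
      (fun _ : Fin (2 * k) => HW (fun i => Fin (A i).g ⊕ Fin (A i).g) n) ℂ) := ⟨_, rfl⟩
  have hB : ∀ v : Fin (2 * k) → HW (fun i => Fin (A i).g ⊕ Fin (A i).g) n,
      (∀ r, IsRatP n (fun i => pData (A i)) (v r)) →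
      ∃ q : ℚ, α' v = (2 * Real.pi * Complex.I) ^ k * q := by
    intro v hv
    rw [hα']
    apply hα2
    intro r i m
    exact (mem_pData_Q _ _).mp (hv r i m)
  have hA : ∀ v : Fin (2 * k) → HW (fun i => Fin (A i).g ⊕ Fin (A i).g) n,
      (∀ r i m j, IsAlgebraic ℚ (v r i m j)) → IsAlgebraic ℚ (α' v) := by
    rw [hα']
    exact hα1
  have hkill := kill_avB A S hc hg h5 hm3 hm5 hm4 hHom n k α' hB hA
  choose σ₀ x hx hx1 hx2 using fun i => (S i).hodge
  have hnd := fun i => k3_nd (S i).conjugation (S i).hermitian (hx i)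
  have hhod := fun i => hod_eq (A i) (S i) (hnd i) (σ₀ i) (x i) (k3_ne (hx i)) (hx1 i) (hx2 i)
  -- sums of symmetries
  have h0 : ∀ {J : Type} (s : Finset J) (F : J → (i : I) → Module.End ℂ (A i).H1),
      (∀ a ∈ s, actForm (lift n (F a)) α' = 0) →
      actForm (lift n (∑ a ∈ s, F a)) α' = 0 := by
    intro J s F
    induction s using Finset.cons_induction with
    | empty =>
      intro _
      rw [Finset.sum_empty, lift_zero, actForm_zero]
    | cons a s ha ih =>
      intro h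
      rw [Finset.sum_cons, lift_add, actForm_add, h a (Finset.mem_cons_self a s),
        ih fun b hb => h b (Finset.mem_cons_of_mem hb), add_zero]
  -- the Hodge projector
  have hact : actForm (lift n (fun i => hod (A i))) α' = (k : ℂ) • α' := by
    have e1 : (fun i => hod (A i)) = ((fun i => (1 / 2 : ℂ) • (1 : Module.End ℂ (A i).H1)) +
        ∑ i, (-(1 / (4 * pr (S i).h (σ₀ i) (x i) (star (x i)))) : ℂ) •
          Pi.single i (tau (ts (lt (A i) (S i)) (σ₀ i)) (x i) *
            tau (ts (lt (A i) (S i)) (cj (σ₀ i))) (star (x i)) -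
            tau (ts (lt (A i) (S i)) (cj (σ₀ i))) (star (x i)) *
              tau (ts (lt (A i) (S i)) (σ₀ i)) (x i)) : (i : I) → Module.End ℂ (A i).H1) := by
      funext l
      rw [Pi.add_apply, Finset.sum_apply, Finset.sum_eq_single l]
      · rw [Pi.smul_apply, Pi.single_eq_same, hhod]
        module
      · intro i _ hi
        rw [Pi.smul_apply, Pi.single_eq_of_ne (Ne.symm hi), smul_zero]
      · intro h; exact absurd (Finset.mem_univ _) h
    rw [e1, lift_add, actForm_add, h0 _ _ (fun i _ => by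
      rw [lift_smul, actForm_smul, hkill i _ (tau_mem_bvS _ _ _ _), smul_zero]), add_zero]
    have h3 := (Helper98.Ball.isInv_homothety n (fun i => pData (A i)) α').form
    rw [mul_one] at h3
    exact h3
  have h4 := Helper8.zero_of_type α' (lift n (fun i => hod (A i))) (fun w => ?_) hact v J hJ
    (fun r hr => ?_)
  · rw [hα'] at h4
    exact h4
  · funext i m
    rw [lift_apply, lift_apply]
    exact hod_idem (A i) _
  · funext i m
    rw [lift_apply]
    exact (hod_fil (A i)).mp (hv r hr i m)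

theorem main_ksv {I : Type} [Fintype I] (A : I → AbVar) {K : I → Type}
    [∀ i, Field (K i)] [∀ i, NumberField (K i)] {c : ∀ i, K i →+* K i} {m : I → ℕ}
    (S : ∀ i, (A i).KugaSatakeMul (K i) (c i) (m i)) (hc : ∀ i, c i = RingHom.id (K i))
    (h5 : St_Hall5) (hm3 : ∀ i, 3 ≤ m i) (hm5 : ∀ i, Ok (pData (A i)) (K i) (m i))
    (hm4 : (∀ i, m i ≠ 4) ∨ Subsingleton I)
    (hHom : ∀ i j, i ≠ j → ∀ f, (A i).IsMor (A j) f → ∀ v, f v = 0) (n : I → ℕ) (k : ℕ)
    (α : Form A n (2 * k)) (hα : IsGrothendieck A n k α) : IsHodge A n k α := by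
  classical
  obtain ⟨hα1, hα2⟩ := hα
  refine ⟨hα2, fun v J hJ hv => ?_⟩
  let α' : Form (fun i : {i // (A i).g ≠ 0} => A i.1) (fun i => n i.1) (2 * k) :=
    α.compLinearMap (extH A n)
  have hα' : ∀ w, α' w = α (fun r => extH A n (w r)) := fun w => rfl
  have hz : ∀ (i : I), ¬ (A i).g ≠ 0 → ∀ u u' : (A i).H1, u = u' := by
    intro i hi u u'
    push Not at hi
    funext j
    rcases j with j | j
    · exact absurd j.2 (by omega)
    · exact absurd j.2 (by omega)
  have hmain := main_posB (fun i : {i // (A i).g ≠ 0} => A i.1) (fun i => S i.1)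
    (fun i => hc i.1) (fun i => i.2) h5 (fun i => hm3 i.1) (fun i => hm5 i.1) (by
      rcases hm4 with h4 | h4
      · exact Or.inl fun i => h4 i.1
      · exact Or.inr inferInstance) (fun i j hij f hf v => hHom i.1 j.1 (fun h0 =>
        hij (Subtype.ext h0)) f hf v) (fun i => n i.1) k α' ⟨fun w hw => ?_, fun w hw => ?_⟩
  · have h1 : v = fun r => extH A n (fun i => v r i.1) := by
      funext r i
      by_cases hi : (A i).g ≠ 0
      · rw [extH_pos A n _ i hi]
      · funext l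
        exact hz i hi _ _
    rw [h1, ← hα' fun r i => v r i.1]
    exact hmain.2 _ J hJ fun r hr i => hv r hr i.1
  · rw [hα']
    apply hα1
    intro r i l
    by_cases hi : (A i).g ≠ 0
    · rw [extH_pos A n _ i hi]
      exact hw r ⟨i, hi⟩ l
    · intro j
      have h1 : extH A n (w r) i l j = 0 := congrFun (hz i hi _ 0) j
      rw [h1]
      exact isAlgebraic_zero
  · rw [hα']
    apply hα2
    intro r i l
    by_cases hi : (A i).g ≠ 0
    · rw [extH_pos A n _ i hi]
      exact hw r ⟨i, hi⟩ l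
    · exact ⟨1, one_ne_zero, 0, (A i).Λ.zero_mem, hz i hi _ _⟩

theorem thm_Main (h5 : St_Hall5) : St_Main := by
  intro I _ A K _ _ c m S hc hm3 hm5 hm4 hHom n k α hα
  exact main_ksv A S hc h5 hm3 hm5 hm4 hHom n k α hα

end Pool.Agent.KSV
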