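import Pool.Agent.KSV.St
import Pool.Agent.KS.Kill

/-!
# KSV, module D4: irreducible Lie algebras of skew operators in dimension four

(helper75; compare `KT/Alg/DichL.lean`)
-/

set_option autoImplicit false
set_option linter.unusedVariables false

namespace Pool.Agent.KSV

open Module LieAlgebra LieModule

attribute [local instance 100] LieRing.ofAssociativeRing

open Pool.Agent.Helper8 (Symp Principal exists_principal exists_adapted4 g4)
open Pool.Agent.Helper84 (mat mat_e mat_h mat_f mat_isSp mat_lie mat_eq_zero GG_eq)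
open Pool.Agent.Helper84.Iso (EE FF HH GG IsSp)
open Pool.Agent.KT.Alg (gg)

private theorem D4_isSp {V : Type*} [AddCommGroup V] [Module ℂ V] (b : Basis (Fin 4) ℂ V)
    (ω : V →ₗ[ℂ] V →ₗ[ℂ] ℂ) (hg : ∀ i j, ω (b i) (b j) = (g4 i j : ℂ)) (Y : Module.End ℂ V)
    (hY : ∀ u v, ω (Y u) v + ω u (Y v) = 0) : IsSp (LinearMap.toMatrix b b Y) := by
  have hm : ∀ j, Y (b j) = ∑ i, LinearMap.toMatrix b b Y i j • b i := by
    intro j
    conv_lhs => rw [← b.sum_repr (Y (b j))]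
    simp only [LinearMap.toMatrix_apply]
  unfold IsSp
  ext i j
  rw [Matrix.add_apply, Matrix.mul_apply, Matrix.mul_apply, Matrix.zero_apply]
  have h1 := hY (b i) (b j)
  rw [hm i, hm j, map_sum, LinearMap.sum_apply, map_sum] at h1
  simp only [map_smul, LinearMap.smul_apply, smul_eq_mul, hg, ← GG_eq] at h1
  simp only [Matrix.transpose_apply]
  rw [← h1]
  congr 1
  exact Finset.sum_congr rfl fun k _ => mul_comm _ _

theorem thm_D4 : St_D4 := by
  intro V _ _ _ hd ω halt hnd 𝔪 hbr hsk hirr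
  have hV : 0 < finrank ℂ V := by rw [hd]; norm_num
  have hI := Pool.Agent.KS.kilL_irr hV 𝔪 hbr hirr
  have htr : ∀ x ∈ Pool.Agent.KS.kilL 𝔪 hbr, LinearMap.trace ℂ V x = 0 := fun x hx =>
    Pool.Agent.KSE.BvE.trace_skew ω hnd x (hsk hx)
  have hK : LieAlgebra.IsKilling ℂ (Pool.Agent.KS.kilL 𝔪 hbr) :=
    Pool.Agent.GP.isKilling_of_irr (Pool.Agent.KS.kilL 𝔪 hbr) htr
  obtain ⟨p⟩ := exists_principal (Pool.Agent.KS.kilL 𝔪 hbr)
  have hω : Symp (Pool.Agent.KS.kilL 𝔪 hbr) ω :=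
    { alt := halt
      nd := hnd
      inv := fun a x y => by
        have h1 : ω (a.1 x) y + ω x (a.1 y) = 0 := hsk a.2 x y
        exact eq_neg_of_add_eq_zero_left h1 }
  obtain ⟨A⟩ := exists_adapted4 (p := p) hω hd
  have me := mat_e p A.b A.e_b
  have mh := mat_h p A.b A.h_b
  have mf := mat_f p A.b A.e_b A.h_b
  have k1 : ∀ M ∈ LinearMap.range (mat (L := Pool.Agent.KS.kilL 𝔪 hbr) A.b), IsSp M := by
    rintro M ⟨x, rfl⟩
    exact mat_isSp hω A.b A.g_b x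
  have k2 : ∀ M ∈ LinearMap.range (mat (L := Pool.Agent.KS.kilL 𝔪 hbr) A.b),
      ∀ N ∈ LinearMap.range (mat (L := Pool.Agent.KS.kilL 𝔪 hbr) A.b),
        M * N - N * M ∈ LinearMap.range (mat (L := Pool.Agent.KS.kilL 𝔪 hbr) A.b) := by
    rintro M ⟨x, rfl⟩ N ⟨y, rfl⟩
    exact ⟨⁅x, y⁆, mat_lie A.b x y⟩
  have hmat : ∀ x : Pool.Agent.KS.kilL 𝔪 hbr,
      mat A.b x = LinearMap.toMatrix A.b A.b (x : Module.End ℂ V) := fun _ => rfl
  rcases Pool.Agent.KT.Alg.thm_Dich (LinearMap.range (mat A.b)) k1 ⟨p.e, me⟩ ⟨p.h, mh⟩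
    ⟨p.f, mf⟩ k2 with h | h
  · right
    refine ⟨A.b, fun Y hY => ?_, fun a b c => ?_⟩
    · exact h (mat A.b (⟨Y, hY⟩ : Pool.Agent.KS.kilL 𝔪 hbr)) ⟨⟨Y, hY⟩, rfl⟩
    · have h2 : mat A.b (a • p.e + b • p.h + c • p.f) = gg a b c := by
        rw [map_add, map_add, map_smul, map_smul, map_smul, me, mh, mf]
        unfold gg
        rfl
      rw [← h2, hmat, Matrix.toLin_toMatrix]
      exact (a • p.e + b • p.h + c • p.f).2
  · left
    intro Y hY
    obtain ⟨x, hx⟩ := h _ (D4_isSp A.b ω A.g_b Y hY)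
    rw [hmat] at hx
    have h2 : (x : Module.End ℂ V) = Y := (LinearMap.toMatrix A.b A.b).injective hx
    rw [← h2]
    exact x.2

end Pool.Agent.KSV
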