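import Pool.Agent.KSV.Result

/-!
The transcendental half of the Grothendieck period conjecture (Grothendieck classes are Hodge
classes), in all degrees, for products of powers of Kuga-Satake varieties of Hodge structures of K3
type with arbitrary endomorphism field.
-/

namespace Pool.Agent.Results.MP_bf54cf_ag.KugaSatake

open Pool.Agent.GPC

theorem result {I : Type} [Fintype I] (A : I → AbVar) (K : I → Type) [∀ i, Field (K i)]
    [∀ i, NumberField (K i)] (c : ∀ i, K i →+* K i) (m : I → ℕ)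
    (S : ∀ i, (A i).KugaSatakeMul (K i) (c i) (m i))
    (hK : ∀ i, (c i = RingHom.id (K i) ∧ 3 ≤ m i ∧
        (m i ≠ 5 ∨ (Module.finrank ℚ (K i) = 1 ∧
          ∃ B : AbVar, B.IsGenericSurface ∧ ∃ f, B.IsMor (A i) f ∧ ∃ v, f v ≠ 0))) ∨
      (c i ≠ RingHom.id (K i) ∧ (m i = 1 ∨ Even (m i)) ∧
        ((IsGalois ℚ (K i) ∧ ∀ g g' : K i ≃ₐ[ℚ] K i, g * g' = g' * g) ∨
          Module.finrank ℚ (K i) ≤ 6 ∨ OddSparse (K i))))
    (hI : Subsingleton I ∨ ∀ i, c i = RingHom.id (K i) ∧ m i ≠ 4)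
    (hHom : ∀ i j, i ≠ j → ∀ f, (A i).IsMor (A j) f → ∀ v, f v = 0) (n : I → ℕ) (k : ℕ)
    (α : Form A n (2 * k)) (hα : IsGrothendieck A n k α) : IsHodge A n k α :=
  Pool.Agent.KSV.result5 A K c m S hK hI hHom n k α hα

end Pool.Agent.Results.MP_bf54cf_ag.KugaSatake
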